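import Mathlib

/-!
# Charts of the cone over the Cayley plane

The triples `x 0, x 1, x 2` of matrices of size 3 with `adj (x t) = x (t + 1) * x (t + 2)`.
-/

set_option autoImplicit false
set_option linter.unusedSectionVars false

namespace Pool.Agent.R837.FQ

open Finset

section alg
variable {L : Type} [Field L]

/-- the defect of the equation `adj (x t) = x (t + 1) * x (t + 2)` at `(i, j)` -/
def Qe {L : Type} [CommRing L] (x : Fin 3 → Fin 3 → Fin 3 → L) (t i j : Fin 3) : L :=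
  x t (j + 1) (i + 1) * x t (j + 2) (i + 2) - x t (j + 1) (i + 2) * x t (j + 2) (i + 1) -
    ∑ l, x (t + 1) i l * x (t + 2) l j

/-- the point of the cone in the chart of the first coordinate -/
def ch (u : Fin 3 → Fin 3 → Fin 3 → L) : Fin 3 → Fin 3 → Fin 3 → L :=
  ![![![u 0 0 0, u 0 0 1, u 0 0 2],
      ![u 0 1 0,
        (u 0 0 1 * u 0 1 0 + (u 1 2 0 * u 2 0 2 + u 1 2 1 * u 2 1 2 + u 1 2 2 * u 2 2 2)) / u 0 0 0,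
        (u 0 0 2 * u 0 1 0 - (u 1 1 0 * u 2 0 2 + u 1 1 1 * u 2 1 2 + u 1 1 2 * u 2 2 2)) / u 0 0 0],
      ![u 0 2 0,
        (u 0 2 0 * u 0 0 1 - (u 1 2 0 * u 2 0 1 + u 1 2 1 * u 2 1 1 + u 1 2 2 * u 2 2 1)) / u 0 0 0,
        (u 0 2 0 * u 0 0 2 + (u 1 1 0 * u 2 0 1 + u 1 1 1 * u 2 1 1 + u 1 1 2 * u 2 2 1)) /
          u 0 0 0]],
    ![![(u 2 1 1 * u 2 2 2 - u 2 1 2 * u 2 2 1 - u 0 0 1 * u 1 1 0 - u 0 0 2 * u 1 2 0) / u 0 0 0,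
        (u 2 2 1 * u 2 0 2 - u 2 2 2 * u 2 0 1 - u 0 0 1 * u 1 1 1 - u 0 0 2 * u 1 2 1) / u 0 0 0,
        (u 2 0 1 * u 2 1 2 - u 2 0 2 * u 2 1 1 - u 0 0 1 * u 1 1 2 - u 0 0 2 * u 1 2 2) / u 0 0 0],
      ![u 1 1 0, u 1 1 1, u 1 1 2],
      ![u 1 2 0, u 1 2 1, u 1 2 2]],
    ![![(u 1 1 1 * u 1 2 2 - u 1 1 2 * u 1 2 1 - u 2 0 1 * u 0 1 0 - u 2 0 2 * u 0 2 0) / u 0 0 0,
        u 2 0 1, u 2 0 2],
      ![(u 1 1 2 * u 1 2 0 - u 1 1 0 * u 1 2 2 - u 2 1 1 * u 0 1 0 - u 2 1 2 * u 0 2 0) / u 0 0 0,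
        u 2 1 1, u 2 1 2],
      ![(u 1 1 0 * u 1 2 1 - u 1 1 1 * u 1 2 0 - u 2 2 1 * u 0 1 0 - u 2 2 2 * u 0 2 0) / u 0 0 0,
        u 2 2 1, u 2 2 2]]]

theorem ch_eq (u : Fin 3 → Fin 3 → Fin 3 → L) (h : u 0 0 0 ≠ 0) (t i j : Fin 3) :
    Qe (ch u) t i j = 0 := by
  unfold Qe
  rw [Fin.sum_univ_three]
  fin_cases t <;> fin_cases i <;> fin_cases j <;>
    (simp [ch]; field_simp; ring)

end alg

end Pool.Agent.R837.FQ
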