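import Pool.Agent.R837.FQ.Cayley

/-!
# Supports of the points of the charts, and the collinearity graph
-/

set_option autoImplicit false
set_option linter.unusedSectionVars false

namespace Pool.Agent.R837.FQ

open Finset

/-- the coordinates which are determined in the chart of the coordinate `v` -/
def coll (v x : Fin 3 × Fin 3 × Fin 3) : Prop :=
  (x.1 = v.1 ∧ x.2.1 ≠ v.2.1 ∧ x.2.2 ≠ v.2.2) ∨ (x.1 = v.1 + 1 ∧ x.2.1 = v.2.2) ∨
    (x.1 = v.1 + 2 ∧ x.2.2 = v.2.1)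

instance (v x : Fin 3 × Fin 3 × Fin 3) : Decidable (coll v x) := by
  unfold coll; infer_instance

/-- the third coordinate in the monomial of the cubic form which contains the first two -/
def third (v x : Fin 3 × Fin 3 × Fin 3) : Fin 3 × Fin 3 × Fin 3 :=
  if x.1 = v.1 then (v.1, -v.2.1 - x.2.1, -v.2.2 - x.2.2)
  else if x.1 = v.1 + 1 then (v.1 + 2, x.2.2, v.2.1)
  else (v.1 + 1, v.2.2, x.2.1)

theorem coll_symm : ∀ v x : Fin 3 × Fin 3 × Fin 3, coll v x → coll x v := by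
  decide +kernel

theorem coll_third : ∀ v x y : Fin 3 × Fin 3 × Fin 3, coll v x → coll v y → coll x y →
    y = third v x := by
  decide +kernel

/-- A system of weights for which the cubic form
`∑ det (x t) - tr (x 0 * x 1 * x 2)` is homogeneous of weight `D`. -/
structure Wt {A : Type*} [CommGroup A] (ω : Fin 3 → Fin 3 → Fin 3 → A) (D : A) : Prop where
  det1 : ∀ t i j, ω t i j * ω t (i + 1) (j + 1) * ω t (i + 2) (j + 2) = D
  det2 : ∀ t i j, ω t i j * ω t (i + 1) (j + 2) * ω t (i + 2) (j + 1) = D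
  trace : ∀ t i j l, ω t i j * ω (t + 1) j l * ω (t + 2) l i = D

section
variable {A : Type*} [CommGroup A] {ω : Fin 3 → Fin 3 → Fin 3 → A} {D : A} (h : Wt ω D)
include h

theorem Wt.quad1 (t i j : Fin 3) :
    ω t (j + 1) (i + 1) * ω t (j + 2) (i + 2) = D * (ω t j i)⁻¹ := by
  rw [← h.det1 t j i]
  rw [mul_assoc (ω t j i), mul_comm (ω t j i), mul_assoc, mul_inv_cancel, mul_one]

theorem Wt.quad2 (t i j : Fin 3) :
    ω t (j + 1) (i + 2) * ω t (j + 2) (i + 1) = D * (ω t j i)⁻¹ := by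
  rw [← h.det2 t j i]
  rw [mul_assoc (ω t j i), mul_comm (ω t j i), mul_assoc, mul_inv_cancel, mul_one]

theorem Wt.quad3 (t i j l : Fin 3) :
    ω (t + 1) i l * ω (t + 2) l j = D * (ω t j i)⁻¹ := by
  rw [← h.trace t j i l]
  rw [mul_assoc (ω t j i), mul_comm (ω t j i), mul_assoc, mul_inv_cancel, mul_one]

theorem Wt.third (v x : Fin 3 × Fin 3 × Fin 3) (hc : coll v x) :
    ω v.1 v.2.1 v.2.2 * ω x.1 x.2.1 x.2.2 *
      ω (third v x).1 (third v x).2.1 (third v x).2.2 = D := by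
  obtain ⟨t, i, j⟩ := v
  obtain ⟨t', i', j'⟩ := x
  rcases hc with ⟨h1, h2, h3⟩ | ⟨h1, h2⟩ | ⟨h1, h2⟩
  · simp only at h1 h2 h3
    subst h1
    have e1 : i' = i + 1 ∨ i' = i + 2 := by revert i i'; decide
    have e2 : j' = j + 1 ∨ j' = j + 2 := by revert j j'; decide
    have f1 : ∀ a : Fin 3, -a - (a + 1) = a + 2 := by decide
    have f2 : ∀ a : Fin 3, -a - (a + 2) = a + 1 := by decide
    simp only [FQ.third, if_true]
    rcases e1 with rfl | rfl <;> rcases e2 with rfl | rfl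
    · rw [f1, f1]; exact h.det1 _ _ _
    · rw [f1, f2]; exact h.det2 _ _ _
    · rw [f1, f2, mul_right_comm]; exact h.det2 _ _ _
    · rw [f2, f2, mul_right_comm]; exact h.det1 _ _ _
  · simp only at h1 h2
    subst h1 h2
    have f1 : ∀ a : Fin 3, a + 1 ≠ a := by decide
    simp only [FQ.third, if_neg (f1 t), if_true]
    exact h.trace _ _ _ _
  · simp only at h1 h2
    subst h1 h2
    have f1 : ∀ a : Fin 3, a + 2 ≠ a := by decide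
    have f2 : ∀ a : Fin 3, a + 2 ≠ a + 1 := by decide
    simp only [FQ.third, if_neg (f1 t), if_neg (f2 t)]
    rw [mul_right_comm]
    exact h.trace _ _ _ _

end

section supp
variable {L : Type} [Field L] {A : Type*} [CommGroup A]

/-- the support of the point of the chart -/
theorem ch_supp {ω : Fin 3 → Fin 3 → Fin 3 → A} {D : A} (h : Wt ω D)
    (u : Fin 3 → Fin 3 → Fin 3 → L) (hu : u 0 0 0 ≠ 0)
    (hs : ∀ t i j, ω t i j ≠ 1 → u t i j = 0) : ∀ t i j, ω t i j ≠ 1 → ch u t i j = 0 := by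
  have h0 : ω 0 0 0 = 1 := by
    by_contra hcon
    exact hu (hs _ _ _ hcon)
  -- products of the weight of a coordinate which is not fixed
  have hp : ∀ {a b c d e f t i j : Fin 3} {W : A}, ω a b c * ω d e f = W →
      ω 0 0 0 * ω t i j = W → ω t i j ≠ 1 → u a b c * u d e f = 0 := by
    intro a b c d e f t i j W h1 h1' h2
    by_cases h3 : ω a b c = 1
    · have h4 : ω d e f ≠ 1 := by
        intro h4
        apply h2
        rw [← h1', h3, h4, h0, one_mul, one_mul] at h1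
        exact h1.symm
      rw [hs _ _ _ h4, mul_zero]
    · rw [hs _ _ _ h3, zero_mul]
  have z011 : ω 0 1 1 ≠ 1 → ch u 0 1 1 = 0 := by
    intro hne
    have hv : ω 0 0 0 * ω 0 1 1 = _ := h.quad1 0 2 2
    have p0 : u 0 0 1 * u 0 1 0 = 0 := hp (h.quad2 0 2 2) hv hne
    have p1 : u 1 2 0 * u 2 0 2 = 0 := hp (h.quad3 0 2 2 0) hv hne
    have p2 : u 1 2 1 * u 2 1 2 = 0 := hp (h.quad3 0 2 2 1) hv hne
    have p3 : u 1 2 2 * u 2 2 2 = 0 := hp (h.quad3 0 2 2 2) hv hne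
    show (u 0 0 1 * u 0 1 0 + (u 1 2 0 * u 2 0 2 + u 1 2 1 * u 2 1 2 + u 1 2 2 * u 2 2 2)) / u 0 0 0 = 0
    rw [p0, p1, p2, p3]
    simp
  have z022 : ω 0 2 2 ≠ 1 → ch u 0 2 2 = 0 := by
    intro hne
    have hv : ω 0 0 0 * ω 0 2 2 = _ := (mul_comm _ _).trans (h.quad1 0 1 1)
    have p0 : u 0 2 0 * u 0 0 2 = 0 := hp (h.quad2 0 1 1) hv hne
    have p1 : u 1 1 0 * u 2 0 1 = 0 := hp (h.quad3 0 1 1 0) hv hne
    have p2 : u 1 1 1 * u 2 1 1 = 0 := hp (h.quad3 0 1 1 1) hv hne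
    have p3 : u 1 1 2 * u 2 2 1 = 0 := hp (h.quad3 0 1 1 2) hv hne
    show (u 0 2 0 * u 0 0 2 + (u 1 1 0 * u 2 0 1 + u 1 1 1 * u 2 1 1 + u 1 1 2 * u 2 2 1)) / u 0 0 0 = 0
    rw [p0, p1, p2, p3]
    simp
  have z012 : ω 0 1 2 ≠ 1 → ch u 0 1 2 = 0 := by
    intro hne
    have hv : ω 0 0 0 * ω 0 1 2 = _ := h.quad2 0 1 2
    have p0 : u 0 0 2 * u 0 1 0 = 0 := hp (h.quad1 0 1 2) hv hne
    have p1 : u 1 1 0 * u 2 0 2 = 0 := hp (h.quad3 0 1 2 0) hv hne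
    have p2 : u 1 1 1 * u 2 1 2 = 0 := hp (h.quad3 0 1 2 1) hv hne
    have p3 : u 1 1 2 * u 2 2 2 = 0 := hp (h.quad3 0 1 2 2) hv hne
    show (u 0 0 2 * u 0 1 0 - (u 1 1 0 * u 2 0 2 + u 1 1 1 * u 2 1 2 + u 1 1 2 * u 2 2 2)) / u 0 0 0 = 0
    rw [p0, p1, p2, p3]
    simp
  have z021 : ω 0 2 1 ≠ 1 → ch u 0 2 1 = 0 := by
    intro hne
    have hv : ω 0 0 0 * ω 0 2 1 = _ := (mul_comm _ _).trans (h.quad2 0 2 1)
    have p0 : u 0 2 0 * u 0 0 1 = 0 := hp (h.quad1 0 2 1) hv hne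
    have p1 : u 1 2 0 * u 2 0 1 = 0 := hp (h.quad3 0 2 1 0) hv hne
    have p2 : u 1 2 1 * u 2 1 1 = 0 := hp (h.quad3 0 2 1 1) hv hne
    have p3 : u 1 2 2 * u 2 2 1 = 0 := hp (h.quad3 0 2 1 2) hv hne
    show (u 0 2 0 * u 0 0 1 - (u 1 2 0 * u 2 0 1 + u 1 2 1 * u 2 1 1 + u 1 2 2 * u 2 2 1)) / u 0 0 0 = 0
    rw [p0, p1, p2, p3]
    simp
  have z100 : ω 1 0 0 ≠ 1 → ch u 1 0 0 = 0 := by
    intro hne
    have hv : ω 0 0 0 * ω 1 0 0 = _ := h.quad3 2 0 0 0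
    have p0 : u 2 1 1 * u 2 2 2 = 0 := hp (h.quad1 2 0 0) hv hne
    have p1 : u 2 1 2 * u 2 2 1 = 0 := hp (h.quad2 2 0 0) hv hne
    have p2 : u 0 0 1 * u 1 1 0 = 0 := hp (h.quad3 2 0 0 1) hv hne
    have p3 : u 0 0 2 * u 1 2 0 = 0 := hp (h.quad3 2 0 0 2) hv hne
    show (u 2 1 1 * u 2 2 2 - u 2 1 2 * u 2 2 1 - u 0 0 1 * u 1 1 0 - u 0 0 2 * u 1 2 0) / u 0 0 0 = 0
    rw [p0, p1, p2, p3]
    simp
  have z101 : ω 1 0 1 ≠ 1 → ch u 1 0 1 = 0 := by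
    intro hne
    have hv : ω 0 0 0 * ω 1 0 1 = _ := h.quad3 2 0 1 0
    have p0 : u 2 2 1 * u 2 0 2 = 0 := hp (h.quad1 2 0 1) hv hne
    have p1 : u 2 2 2 * u 2 0 1 = 0 := hp (h.quad2 2 0 1) hv hne
    have p2 : u 0 0 1 * u 1 1 1 = 0 := hp (h.quad3 2 0 1 1) hv hne
    have p3 : u 0 0 2 * u 1 2 1 = 0 := hp (h.quad3 2 0 1 2) hv hne
    show (u 2 2 1 * u 2 0 2 - u 2 2 2 * u 2 0 1 - u 0 0 1 * u 1 1 1 - u 0 0 2 * u 1 2 1) / u 0 0 0 = 0
    rw [p0, p1, p2, p3]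
    simp
  have z102 : ω 1 0 2 ≠ 1 → ch u 1 0 2 = 0 := by
    intro hne
    have hv : ω 0 0 0 * ω 1 0 2 = _ := h.quad3 2 0 2 0
    have p0 : u 2 0 1 * u 2 1 2 = 0 := hp (h.quad1 2 0 2) hv hne
    have p1 : u 2 0 2 * u 2 1 1 = 0 := hp (h.quad2 2 0 2) hv hne
    have p2 : u 0 0 1 * u 1 1 2 = 0 := hp (h.quad3 2 0 2 1) hv hne
    have p3 : u 0 0 2 * u 1 2 2 = 0 := hp (h.quad3 2 0 2 2) hv hne
    show (u 2 0 1 * u 2 1 2 - u 2 0 2 * u 2 1 1 - u 0 0 1 * u 1 1 2 - u 0 0 2 * u 1 2 2) / u 0 0 0 = 0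
    rw [p0, p1, p2, p3]
    simp
  have z200 : ω 2 0 0 ≠ 1 → ch u 2 0 0 = 0 := by
    intro hne
    have hv : ω 0 0 0 * ω 2 0 0 = _ := (mul_comm _ _).trans (h.quad3 1 0 0 0)
    have p0 : u 1 1 1 * u 1 2 2 = 0 := hp (h.quad1 1 0 0) hv hne
    have p1 : u 1 1 2 * u 1 2 1 = 0 := hp (h.quad2 1 0 0) hv hne
    have p2 : u 2 0 1 * u 0 1 0 = 0 := hp (h.quad3 1 0 0 1) hv hne
    have p3 : u 2 0 2 * u 0 2 0 = 0 := hp (h.quad3 1 0 0 2) hv hne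
    show (u 1 1 1 * u 1 2 2 - u 1 1 2 * u 1 2 1 - u 2 0 1 * u 0 1 0 - u 2 0 2 * u 0 2 0) / u 0 0 0 = 0
    rw [p0, p1, p2, p3]
    simp
  have z210 : ω 2 1 0 ≠ 1 → ch u 2 1 0 = 0 := by
    intro hne
    have hv : ω 0 0 0 * ω 2 1 0 = _ := (mul_comm _ _).trans (h.quad3 1 1 0 0)
    have p0 : u 1 1 2 * u 1 2 0 = 0 := hp (h.quad1 1 1 0) hv hne
    have p1 : u 1 1 0 * u 1 2 2 = 0 := hp (h.quad2 1 1 0) hv hne
    have p2 : u 2 1 1 * u 0 1 0 = 0 := hp (h.quad3 1 1 0 1) hv hne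
    have p3 : u 2 1 2 * u 0 2 0 = 0 := hp (h.quad3 1 1 0 2) hv hne
    show (u 1 1 2 * u 1 2 0 - u 1 1 0 * u 1 2 2 - u 2 1 1 * u 0 1 0 - u 2 1 2 * u 0 2 0) / u 0 0 0 = 0
    rw [p0, p1, p2, p3]
    simp
  have z220 : ω 2 2 0 ≠ 1 → ch u 2 2 0 = 0 := by
    intro hne
    have hv : ω 0 0 0 * ω 2 2 0 = _ := (mul_comm _ _).trans (h.quad3 1 2 0 0)
    have p0 : u 1 1 0 * u 1 2 1 = 0 := hp (h.quad1 1 2 0) hv hne
    have p1 : u 1 1 1 * u 1 2 0 = 0 := hp (h.quad2 1 2 0) hv hne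
    have p2 : u 2 2 1 * u 0 1 0 = 0 := hp (h.quad3 1 2 0 1) hv hne
    have p3 : u 2 2 2 * u 0 2 0 = 0 := hp (h.quad3 1 2 0 2) hv hne
    show (u 1 1 0 * u 1 2 1 - u 1 1 1 * u 1 2 0 - u 2 2 1 * u 0 1 0 - u 2 2 2 * u 0 2 0) / u 0 0 0 = 0
    rw [p0, p1, p2, p3]
    simp
  intro t i j hne
  fin_cases t <;> fin_cases i <;> fin_cases j <;>
    first
    | exact hs _ _ _ hne
    | exact z011 hne | exact z022 hne | exact z012 hne | exact z021 hne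
    | exact z100 hne | exact z101 hne | exact z102 hne
    | exact z200 hne | exact z210 hne | exact z220 hne

end supp

end Pool.Agent.R837.FQ
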