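import Pool.Agent.R837.FQ.Key
import Pool.Agent.R837.FE.Total

/-!
# The averaged inequality for several formats
-/

set_option autoImplicit false
set_option linter.unusedSectionVars false

namespace Pool.Agent.R837.FQ

open Finset MvPolynomial Pool.Agent.TH144.NV

/-- A format: coordinates `K`, equations `g`, forms `M x` in place of the coordinates, and a
weighted family of test degrees and characters `d`, `X` which bounds the number of the coordinates
that cannot be chosen freely. -/
structure BD (k : Type) [Field k] (G : Type) [Group G] (N : ℕ) (w : Fin N → ℕ)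
    (α : Fin N → G →* kˣ) (top2 : ℤ) (rk : (Fin N → k) → Prop) where
  K : Type
  ftK : Fintype K
  J : Type
  g : J → MvPolynomial K k
  M : K → MvPolynomial (Fin N) k
  dg : K → ℕ
  dg_pos : ∀ x, 0 < dg x
  hom : ∀ x, IsWeightedHomogeneous w (M x) (dg x)
  hg : ∀ j, ∃ m, IsWeightedHomogeneous dg (g j) m
  χ : K → G →* kˣ
  semi : ∀ (γ : G) (x : K),
    act (fun i => (α i γ : k)) (M x) = C ((χ x γ : kˣ) : k) * M x
  rank : ∀ p : Fin N → k, (∀ j, eval (fun x => eval p (M x)) (g j) = 0) → rk p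
  P : Type
  ftP : Fintype P
  c : P → ℕ
  d : P → ℕ
  hd : ∀ p, 0 < d p
  X : P → G →* kˣ
  q : ℕ
  hq : 0 < q
  htop : (q : ℤ) * top2 = 2 * ∑ p, (c p : ℤ) * d p
  pat : ∀ (γ : G) (μ : kˣ), ∃ Pt : Finset K, Ext k g (fun x => χ x γ = μ ^ dg x) Pt ∧
    ∀ (A : Finset K), (∀ x, x ∈ A ↔ χ x γ = μ ^ dg x) →
    ∀ (E : Finset P), (∀ p, p ∈ E ↔ X p γ = μ ^ d p) →
      Pt.card ≤ A.card ∧ q * (A.card - Pt.card) ≤ ∑ p ∈ E, c p

attribute [instance] BD.ftK BD.ftP

open Classical in
/-- the weights which take no part in level `h` -/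
theorem total {k : Type} [Field k] [IsAlgClosed k] [CharZero k] {G : Type} [Group G]
    [Finite G] {N : ℕ} (w : Fin N → ℕ) (hw : ∀ i, 0 < w i) (α : Fin N → G →* kˣ) (h : ℕ)
    {Λ : Type} [Fintype Λ] (top2 : Λ → ℤ) (rk : Λ → (Fin N → k) → Prop)
    (bd : ∀ l, BD k G N w α (top2 l) (rk l))
    (H0 : ∀ (g : G) (μ : kˣ), μ ^ h ≠ 1 → ∀ p : Fin N → k,
      (∀ i, p i ≠ 0 → α i g = μ ^ w i) → (∀ l, rk l p) → p = 0)
    (S : Finset (Fin N)) (hS : ∀ i, i ∈ S ↔ ¬ Good h (w i) (α i)) :
    2 * ∑ i ∈ S, (w i : ℤ) ≤ ∑ l, top2 l := by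
  set Q : ℕ := ∏ l, (bd l).q with hQ
  set Ql : Λ → ℕ := fun l => ∏ l' ∈ univ.erase l, (bd l').q with hQl
  have hQQ : ∀ l, (bd l).q * Ql l = Q := fun l =>
    Finset.mul_prod_erase univ (fun l => (bd l).q) (mem_univ l)
  have hQpos : 0 < Q := Finset.prod_pos fun l _ => (bd l).hq
  have h1 := Pool.Agent.R837.FE.main_ineq_w (k := k) (G := G) w hw
    (fun x : Σ l, (bd l).P => (bd x.1).d x.2)
    (fun x => (bd x.1).hd x.2) α (fun x => (bd x.1).X x.2) h Q
    (fun x => Ql x.1 * (bd x.1).c x.2) (by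
    intro g μ hμ
    set T : Finset (Fin N) := univ.filter fun i => α i g = μ ^ w i with hT
    have hT' : ∀ i, i ∈ T ↔ α i g = μ ^ w i := by
      intro i
      simp [hT]
    have hpat := fun l => (bd l).pat g μ
    choose Pt hext hcount using hpat
    set A : ∀ l, Finset (bd l).K := fun l =>
      univ.filter (fun x => (bd l).χ x g = μ ^ (bd l).dg x) with hA
    set E : ∀ l, Finset (bd l).P := fun l =>
      univ.filter (fun p => (bd l).X p g = μ ^ (bd l).d p) with hE
    have hc : ∀ l, (Pt l).card ≤ (A l).card ∧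
        (bd l).q * ((A l).card - (Pt l).card) ≤ ∑ p ∈ E l, (bd l).c p := fun l =>
      hcount l (A l) (fun x => by simp [hA]) (E l) (fun p => by simp [hE])
    have h2 := key (k := k) w hw T (fun l => (bd l).K) (fun l => (bd l).J) (fun l => (bd l).g)
      (fun l => (bd l).M) (fun l => (bd l).dg) (fun l => (bd l).dg_pos) (fun l => (bd l).hom)
      (fun l => (bd l).hg) (fun l x => (bd l).χ x g = μ ^ (bd l).dg x) (by
        intro l x hx p hp
        refine Pool.Agent.Y374.PF.eval_eq_zero_of_ne ((bd l).hom x) (fun i => (α i g : k))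
          (((bd l).χ x g : kˣ) : k) ((bd l).semi g x) (μ : k) ?_ ?_
        · intro i
          by_cases hi : i ∈ T
          · rw [(hT' i).1 hi, Units.val_pow_eq_pow_val]
          · rw [hp i hi, mul_zero, mul_zero]
        · intro h3
          apply hx
          ext
          rw [h3, Units.val_pow_eq_pow_val])
      Pt hext (by
        intro p hp hz
        refine H0 g μ hμ p ?_ fun l => (bd l).rank p (hz l)
        intro i hi
        by_contra hcon
        exact hi (hp i fun h => hcon ((hT' i).1 h)))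
    have h3 : T.card ≤ ∑ l, ((A l).card - (Pt l).card) := by
      have h4 : ∑ l, ((A l).card - (Pt l).card) + ∑ l, (Pt l).card = ∑ l, (A l).card := by
        rw [← Finset.sum_add_distrib]
        exact Finset.sum_congr rfl fun l _ => Nat.sub_add_cancel (hc l).1
      have h5 : T.card + ∑ l, (Pt l).card ≤ ∑ l, (A l).card := by
        refine h2.trans (le_of_eq (Finset.sum_congr rfl fun l _ => ?_))
        congr 1
        ext x
        simp [hA]
      omega
    calc Q * T.card ≤ Q * ∑ l, ((A l).card - (Pt l).card) := Nat.mul_le_mul_left _ h3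
      _ = ∑ l, Ql l * ((bd l).q * ((A l).card - (Pt l).card)) := by
          rw [Finset.mul_sum]
          refine Finset.sum_congr rfl fun l _ => ?_
          rw [← hQQ l]
          ring
      _ ≤ ∑ l, Ql l * ∑ p ∈ E l, (bd l).c p :=
          Finset.sum_le_sum fun l _ => Nat.mul_le_mul_left _ (hc l).2
      _ = ∑ x ∈ univ.filter (fun x : Σ l, (bd l).P => (bd x.1).X x.2 g = μ ^ (bd x.1).d x.2),
          Ql x.1 * (bd x.1).c x.2 := by
          have h3 : (univ.filter (fun x : Σ l, (bd l).P =>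
              (bd x.1).X x.2 g = μ ^ (bd x.1).d x.2)) =
              (univ : Finset Λ).sigma fun l => E l := by
            ext x
            simp [hE]
          rw [h3, Finset.sum_sigma]
          exact Finset.sum_congr rfl fun l _ => Finset.mul_sum _ _ _)
  have h2 : ∑ i ∈ S, w i = ∑ i ∈ univ.filter (fun i => ¬ Good h (w i) (α i)), w i := by
    congr 1
    ext i
    rw [hS]
    simp
  rw [← h2] at h1
  have h3 : (Q : ℤ) * (2 * ∑ i ∈ S, (w i : ℤ)) ≤ Q * ∑ l, top2 l := by
    have h4 : (Q : ℤ) * ∑ i ∈ S, (w i : ℤ) ≤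
        ∑ x : Σ l, (bd l).P, ((Ql x.1 : ℤ) * (bd x.1).c x.2) * (bd x.1).d x.2 := by
      exact_mod_cast h1
    have h5 : 2 * ∑ x : Σ l, (bd l).P, ((Ql x.1 : ℤ) * (bd x.1).c x.2) * (bd x.1).d x.2 =
        Q * ∑ l, top2 l := by
      rw [Fintype.sum_sigma, Finset.mul_sum, Finset.mul_sum]
      refine Finset.sum_congr rfl fun l _ => ?_
      have h6 := (bd l).htop
      have h7 : (Q : ℤ) = (bd l).q * Ql l := by exact_mod_cast (hQQ l).symm
      rw [h7, mul_assoc, mul_comm (Ql l : ℤ), ← mul_assoc, h6, mul_assoc, Finset.sum_mul]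
      congr 1
      exact Finset.sum_congr rfl fun p _ => by ring
    linarith
  exact le_of_mul_le_mul_left h3 (by exact_mod_cast hQpos)

end Pool.Agent.R837.FQ
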