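import Pool.Agent.R837.FQ.Cayley2
import Pool.Agent.R837.FQ.Total

/-!
# The format of the Cayley plane
-/

set_option autoImplicit false
set_option linter.unusedSectionVars false

namespace Pool.Agent.R837.FQ

open Finset MvPolynomial Pool.Agent.TH144.NV

section shift
variable {L : Type*}

/-- shift of the indices -/
def sh (s : Fin 3 → Fin 3) (t0 : Fin 3) (x : Fin 3 → Fin 3 → Fin 3 → L) :
    Fin 3 → Fin 3 → Fin 3 → L := fun t i j => x (t + t0) (i + s t) (j + s (t + 1))

theorem add11 (t : Fin 3) : t + 1 + 1 = t + 2 := by revert t; decide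

theorem add21 (t : Fin 3) : t + 2 + 1 = t := by revert t; decide

theorem sh_back (s : Fin 3 → Fin 3) (t0 : Fin 3) (x : Fin 3 → Fin 3 → Fin 3 → L)
    (t i j : Fin 3) : sh s t0 x (t - t0) (i - s (t - t0)) (j - s (t - t0 + 1)) = x t i j := by
  unfold sh
  rw [sub_add_cancel, sub_add_cancel, sub_add_cancel]

theorem Qe_sh {L : Type} [CommRing L] (s : Fin 3 → Fin 3) (t0 : Fin 3) (x : Fin 3 → Fin 3 → Fin 3 → L)
    (t i j : Fin 3) : Qe (sh s t0 x) t i j = Qe x (t + t0) (i + s (t + 1)) (j + s t) := by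
  unfold Qe sh
  rw [add_right_comm j 1, add_right_comm i 1, add_right_comm j 2, add_right_comm i 2, add11, add21,
    add_right_comm t 1, add_right_comm t 2]
  congr 1
  exact Equiv.sum_comp (Equiv.addRight (s (t + 2)))
    (fun l => x (t + t0 + 1) (i + s (t + 1)) l * x (t + t0 + 2) l (j + s t))

theorem Wt.sh [CommGroup L] {ω : Fin 3 → Fin 3 → Fin 3 → L} {D : L} (h : Wt ω D)
    (s : Fin 3 → Fin 3) (t0 : Fin 3) : Wt (sh s t0 ω) D where
  det1 t i j := by
    unfold FQ.sh
    rw [add_right_comm i 1, add_right_comm i 2, add_right_comm j 1, add_right_comm j 2]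
    exact h.det1 _ _ _
  det2 t i j := by
    unfold FQ.sh
    rw [add_right_comm i 1, add_right_comm i 2, add_right_comm j 1, add_right_comm j 2]
    exact h.det2 _ _ _
  trace t i j l := by
    unfold FQ.sh
    rw [add11, add21, add_right_comm t 1, add_right_comm t 2]
    exact h.trace _ _ _ _

end shift

theorem coll_shift : ∀ t0 i0 j0 t i j : Fin 3,
    coll (0, 0, 0) (t - t0, i - (![i0, j0, 0] : Fin 3 → Fin 3) (t - t0),
      j - (![i0, j0, 0] : Fin 3 → Fin 3) (t - t0 + 1)) → coll (t0, i0, j0) (t, i, j) := by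
  decide +kernel

theorem ch_free {L : Type} [Field L] (u : Fin 3 → Fin 3 → Fin 3 → L) (t i j : Fin 3)
    (h : ¬ coll (0, 0, 0) (t, i, j)) : ch u t i j = u t i j := by
  fin_cases t <;> fin_cases i <;> fin_cases j <;>
    first
    | rfl
    | exact absurd (by decide) h

/-- points of the cone in the chart of any coordinate -/
theorem exists_chart {L : Type} [Field L] {A : Type*} [CommGroup A]
    {ω : Fin 3 → Fin 3 → Fin 3 → A} {D : A} (h : Wt ω D) (v : Fin 3 × Fin 3 × Fin 3)
    (u : Fin 3 → Fin 3 → Fin 3 → L) (hu : u v.1 v.2.1 v.2.2 ≠ 0)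
    (hs : ∀ t i j, ω t i j ≠ 1 → u t i j = 0) :
    ∃ z : Fin 3 → Fin 3 → Fin 3 → L, (∀ t i j, ¬ coll v (t, i, j) → z t i j = u t i j) ∧
      (∀ t i j, ω t i j ≠ 1 → z t i j = 0) ∧ ∀ t i j, Qe z t i j = 0 := by
  obtain ⟨t0, i0, j0⟩ := v
  set s : Fin 3 → Fin 3 := ![i0, j0, 0] with hsdef
  set u' := sh s t0 u with hu'
  have hu0 : u' 0 0 0 ≠ 0 := by
    have e1 : u' 0 0 0 = u t0 i0 j0 := by
      show u (0 + t0) (0 + s 0) (0 + s (0 + 1)) = u t0 i0 j0
      rw [zero_add, zero_add, zero_add, zero_add]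
      rfl
    rw [e1]
    exact hu
  have hs' : ∀ t i j, sh s t0 ω t i j ≠ 1 → u' t i j = 0 := fun t i j hne => hs _ _ _ hne
  set z : Fin 3 → Fin 3 → Fin 3 → L := fun t i j =>
    ch u' (t - t0) (i - s (t - t0)) (j - s (t - t0 + 1)) with hz
  have hsz : sh s t0 z = ch u' := by
    funext t i j
    rw [hz]
    unfold sh
    simp only [add_sub_cancel_right]
  refine ⟨z, ?_, ?_, ?_⟩
  · intro t i j hc
    have h1 : z t i j = u' (t - t0) (i - s (t - t0)) (j - s (t - t0 + 1)) :=
      ch_free u' _ _ _ fun h => hc (coll_shift t0 i0 j0 t i j h)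
    rw [h1, hu', sh_back]
  · intro t i j hne
    have h1 := ch_supp (h.sh s t0) u' hu0 hs' (t - t0) (i - s (t - t0)) (j - s (t - t0 + 1))
    rw [sh_back] at h1
    exact h1 hne
  · intro t i j
    have h1 := Qe_sh s t0 z (t - t0) (i - s (t - t0 + 1)) (j - s (t - t0))
    rw [sub_add_cancel, sub_add_cancel, sub_add_cancel, hsz, ch_eq u' hu0] at h1
    exact h1.symm

/-- the equations of the cone over the Cayley plane -/
noncomputable def cayEq (k : Type) [Field k] (x : Fin 3 × Fin 3 × Fin 3) :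
    MvPolynomial (Fin 3 × Fin 3 × Fin 3) k := Qe (fun t i j => X (t, i, j)) x.1 x.2.1 x.2.2

theorem aeval_cayEq {k L : Type} [Field k] [CommRing L] [Algebra k L]
    (z : Fin 3 × Fin 3 × Fin 3 → L) (x : Fin 3 × Fin 3 × Fin 3) :
    aeval z (cayEq k x) = Qe (fun t i j => z (t, i, j)) x.1 x.2.1 x.2.2 := by
  unfold cayEq Qe
  simp only [map_sub, map_mul, map_sum, aeval_X]

theorem not_coll_self : ∀ v : Fin 3 × Fin 3 × Fin 3, ¬ coll v v := by decide +kernel

theorem cay_ext {k : Type} [Field k] {A : Type*} [CommGroup A]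
    {ω : Fin 3 → Fin 3 → Fin 3 → A} {D : A} (h : Wt ω D) (v : Fin 3 × Fin 3 × Fin 3)
    (hv : ω v.1 v.2.1 v.2.2 = 1) (P : Finset (Fin 3 × Fin 3 × Fin 3))
    (hP : ∀ x, x ∈ P ↔ ω x.1 x.2.1 x.2.2 = 1 ∧ ¬ coll v x) :
    Ext k (cayEq k) (fun x => ω x.1 x.2.1 x.2.2 = 1) P := by
  classical
  intro L _ _ u hind
  have hvP : v ∈ P := (hP v).2 ⟨hv, not_coll_self v⟩
  have hu0 : u v ≠ 0 := hind.ne_zero ⟨v, hvP⟩
  obtain ⟨z, h1, h2, h3⟩ := exists_chart (L := L) h v (fun t i j => if (t, i, j) ∈ P then u (t, i, j)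
    else 0) (by
      show (if v ∈ P then u v else 0) ≠ 0
      rw [if_pos hvP]
      exact hu0) (by
      intro t i j hne
      exact if_neg fun hm => hne ((hP _).1 hm).1)
  refine ⟨fun x => z x.1 x.2.1 x.2.2, ?_, fun x hx => h2 _ _ _ hx, ?_⟩
  · intro x hx
    show z x.1 x.2.1 x.2.2 = u x
    rw [h1 _ _ _ ((hP x).1 hx).2]
    exact if_pos hx
  · intro x
    rw [aeval_cayEq]
    exact h3 _ _ _

theorem cay_ext_empty {k : Type} [Field k] (live : Fin 3 × Fin 3 × Fin 3 → Prop) :
    Ext k (cayEq k) live ∅ := by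
  intro L _ _ u _
  refine ⟨0, by simp, by simp, ?_⟩
  intro x
  rw [aeval_cayEq]
  unfold Qe
  simp

/-- the number of the coordinates which are determined, in a suitable chart -/
theorem exists_vertex (A : Finset (Fin 3 × Fin 3 × Fin 3)) (hA : A.Nonempty) :
    ∃ v ∈ A, 2 * (A.filter (coll v)).card ≤ A.card ∨
      (2 * (A.filter (coll v)).card ≤ A.card + 1 ∧
        ∃ x ∈ A, coll v x ∧ third v x ∈ A) := by
  classical
  by_cases hE : ∃ v ∈ A, ∃ x ∈ A, coll v x
  · obtain ⟨v, hv, x, hx, hvx⟩ := hE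
    have h1 : (A.filter (coll v)).card + (A.filter (coll x)).card =
        (A.filter (coll v) ∪ A.filter (coll x)).card +
          (A.filter (coll v) ∩ A.filter (coll x)).card := (Finset.card_union_add_card_inter _ _).symm
    have h2 : (A.filter (coll v) ∪ A.filter (coll x)).card ≤ A.card :=
      Finset.card_le_card (Finset.union_subset (Finset.filter_subset _ _)
        (Finset.filter_subset _ _))
    have h3 : A.filter (coll v) ∩ A.filter (coll x) ⊆ A ∩ {third v x} := by
      intro y hy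
      rw [Finset.mem_inter, Finset.mem_filter, Finset.mem_filter] at hy
      rw [Finset.mem_inter, Finset.mem_singleton]
      exact ⟨hy.1.1, coll_third v x y hvx hy.1.2 hy.2.2⟩
    have hxv := coll_symm v x hvx
    by_cases ht : third v x ∈ A
    · have h4 : (A.filter (coll v) ∩ A.filter (coll x)).card ≤ 1 :=
        (Finset.card_le_card (h3.trans Finset.inter_subset_right)).trans (by simp)
      rcases le_total (A.filter (coll v)).card (A.filter (coll x)).card with h5 | h5
      · exact ⟨v, hv, Or.inr ⟨by omega, x, hx, hvx, ht⟩⟩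
      · refine ⟨x, hx, Or.inr ⟨by omega, v, hv, hxv, ?_⟩⟩
        have h6 : ∀ v x : Fin 3 × Fin 3 × Fin 3, coll v x → third x v = third v x := by
          decide +kernel
        rw [h6 v x hvx]
        exact ht
    · have h4 : (A.filter (coll v) ∩ A.filter (coll x)).card = 0 := by
        rw [Finset.card_eq_zero, ← Finset.subset_empty]
        refine h3.trans ?_
        intro y hy
        rw [Finset.mem_inter, Finset.mem_singleton] at hy
        exact absurd (hy.2 ▸ hy.1) ht
      rcases le_total (A.filter (coll v)).card (A.filter (coll x)).card with h5 | h5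
      · exact ⟨v, hv, Or.inl (by omega)⟩
      · exact ⟨x, hx, Or.inl (by omega)⟩
  · push Not at hE
    obtain ⟨v, hv⟩ := hA
    refine ⟨v, hv, Or.inl ?_⟩
    have h1 : A.filter (coll v) = ∅ := by
      rw [Finset.filter_eq_empty_iff]
      exact fun x hx => hE v hv x hx
    rw [h1]
    simp

end Pool.Agent.R837.FQ
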