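import Pool.Agent.R837.FQ.Cayley3

/-!
# The block of a triple of matrices
-/

set_option autoImplicit false
set_option linter.unusedSectionVars false

namespace Pool.Agent.R837.FQ

open Finset MvPolynomial Pool.Agent.TH144.NV

/-- the equations are homogeneous -/
theorem hom_Qe {k σ : Type} [Field k] (w : σ → ℕ) {δ : Fin 3 → Fin 3 → Fin 3 → Multiplicative ℤ}
    {D : Multiplicative ℤ} (h : Wt δ D) (x : Fin 3 → Fin 3 → Fin 3 → MvPolynomial σ k)
    (hx : ∀ t i j, x t i j = 0 ∨ ∃ m : ℕ, Multiplicative.ofAdd (m : ℤ) = δ t i j ∧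
      IsWeightedHomogeneous w (x t i j) m) (t i j : Fin 3) :
    ∃ m, IsWeightedHomogeneous w (Qe x t i j) m := by
  refine ⟨(Multiplicative.toAdd (D * (δ t j i)⁻¹)).toNat, ?_⟩
  have hp : ∀ {a b c d e f : Fin 3}, δ a b c * δ d e f = D * (δ t j i)⁻¹ →
      IsWeightedHomogeneous w (x a b c * x d e f) (Multiplicative.toAdd (D * (δ t j i)⁻¹)).toNat := by
    intro a b c d e f h1
    rcases hx a b c with h2 | ⟨m, hm, h2⟩
    · rw [h2, zero_mul]; exact isWeightedHomogeneous_zero _ _ _
    · rcases hx d e f with h3 | ⟨m', hm', h3⟩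
      · rw [h3, mul_zero]; exact isWeightedHomogeneous_zero _ _ _
      · have h4 : (Multiplicative.toAdd (D * (δ t j i)⁻¹)).toNat = m + m' := by
          rw [← h1, ← hm, ← hm', ← ofAdd_add, toAdd_ofAdd]
          omega
        rw [h4]
        exact h2.mul h3
  unfold Qe
  refine ((hp (h.quad1 t i j)).sub (hp (h.quad2 t i j))).sub ?_
  exact IsWeightedHomogeneous.sum _ _ _ fun l _ => hp (h.quad3 t i j l)

theorem three_mul {A : Type*} [CommMonoid A] (a b c x y z : A) :
    a * x * (b * y) * (c * z) = a * b * c * (x * y * z) := by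
  rw [mul_mul_mul_comm a x b y, mul_mul_mul_comm (a * b) (x * y) c z]

/-- weights from characters and degrees -/
theorem wt_of {k : Type} [Field k] {G : Type} [Group G] {χ : Fin 3 → Fin 3 → Fin 3 → G →* kˣ}
    {Ξ : G →* kˣ} (hχ : Wt χ Ξ) {dg : Fin 3 → Fin 3 → Fin 3 → ℤ} {D : ℤ}
    (hd : Wt (fun t i j => Multiplicative.ofAdd (dg t i j)) (Multiplicative.ofAdd D))
    (γ : G) (μ : kˣ) : Wt (fun t i j => χ t i j γ * (μ ^ dg t i j)⁻¹) (Ξ γ * (μ ^ D)⁻¹) where
  det1 t i j := by
    have h1 := DFunLike.congr_fun (hχ.det1 t i j) γ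
    have h2 : dg t i j + dg t (i + 1) (j + 1) + dg t (i + 2) (j + 2) = D :=
      Multiplicative.ofAdd.injective (hd.det1 t i j)
    rw [← h1, ← h2, zpow_add, zpow_add]
    simp only [MonoidHom.mul_apply, mul_inv]
    exact three_mul _ _ _ _ _ _
  det2 t i j := by
    have h1 := DFunLike.congr_fun (hχ.det2 t i j) γ
    have h2 : dg t i j + dg t (i + 1) (j + 2) + dg t (i + 2) (j + 1) = D :=
      Multiplicative.ofAdd.injective (hd.det2 t i j)
    rw [← h1, ← h2, zpow_add, zpow_add]
    simp only [MonoidHom.mul_apply, mul_inv]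
    exact three_mul _ _ _ _ _ _
  trace t i j l := by
    have h1 := DFunLike.congr_fun (hχ.trace t i j l) γ
    have h2 : dg t i j + dg (t + 1) j l + dg (t + 2) l i = D :=
      Multiplicative.ofAdd.injective (hd.trace t i j l)
    rw [← h1, ← h2, zpow_add, zpow_add]
    simp only [MonoidHom.mul_apply, mul_inv]
    exact three_mul _ _ _ _ _ _

theorem eq_pow_iff {k : Type} [Field k] (x μ : kˣ) (m : ℕ) :
    x * (μ ^ (m : ℤ))⁻¹ = 1 ↔ x = μ ^ m := by
  rw [zpow_natCast, mul_inv_eq_one]

/-- the block of a triple of matrices of size 3 -/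
theorem exists_bd_cay {k : Type} [Field k] {G : Type} [Group G] {N : ℕ}
    {w : Fin N → ℕ} {α : Fin N → G →* kˣ}
    (dg : Fin 3 → Fin 3 → Fin 3 → ℕ) (D : ℕ) (pos : ∀ t i j, 0 < dg t i j)
    (hd : Wt (fun t i j => Multiplicative.ofAdd (dg t i j : ℤ)) (Multiplicative.ofAdd (D : ℤ)))
    (χ : Fin 3 → Fin 3 → Fin 3 → G →* kˣ) (Ξ : G →* kˣ) (hχ : Wt χ Ξ)
    (M : Fin 3 → Fin 3 → Fin 3 → MvPolynomial (Fin N) k)
    (hom : ∀ t i j, IsWeightedHomogeneous w (M t i j) (dg t i j))
    (semi : ∀ γ t i j, act (fun i => (α i γ : k)) (M t i j) = C ((χ t i j γ : kˣ) : k) * M t i j) :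
    Nonempty (BD k G N w α ((D : ℤ) + ∑ t, ∑ i, ∑ j, (dg t i j : ℤ)) fun p =>
      ∀ t i j, Qe (fun t i j => eval p (M t i j)) t i j = 0) := by
  classical
  have hD : 0 < D := by
    have h1 : ((dg 0 0 0 : ℤ) + dg 0 1 1 + dg 0 2 2) = D :=
      Multiplicative.ofAdd.injective (hd.det1 0 0 0)
    have := pos 0 0 0
    omega
  refine ⟨{
    K := Fin 3 × Fin 3 × Fin 3
    ftK := inferInstance
    J := Fin 3 × Fin 3 × Fin 3
    g := cayEq k
    M := fun x => M x.1 x.2.1 x.2.2
    dg := fun x => dg x.1 x.2.1 x.2.2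
    dg_pos := fun x => pos _ _ _
    hom := fun x => hom _ _ _
    hg := ?_
    χ := fun x => χ x.1 x.2.1 x.2.2
    semi := fun γ x => semi γ _ _ _
    rank := ?_
    P := Option (Fin 3 × Fin 3 × Fin 3)
    ftP := inferInstance
    c := fun _ => 1
    d := fun x => x.elim D fun x => dg x.1 x.2.1 x.2.2
    hd := ?_
    X := fun x => x.elim Ξ fun x => χ x.1 x.2.1 x.2.2
    q := 2
    hq := two_pos
    htop := ?_
    pat := ?_ }⟩
  · rintro ⟨t, i, j⟩
    exact hom_Qe _ hd _ (fun t i j => Or.inr ⟨dg t i j, rfl, isWeightedHomogeneous_X k _ _⟩) t i j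
  · intro p hp t i j
    have h1 := hp (t, i, j)
    have h2 := aeval_cayEq (k := k) (L := k) (fun x => eval p (M x.1 x.2.1 x.2.2)) (t, i, j)
    rw [← h2]
    exact h1
  · rintro (_ | x)
    · exact hD
    · exact pos _ _ _
  · rw [Fintype.sum_option, Fintype.sum_prod_type]
    simp only [Fintype.sum_prod_type, Option.elim_none, Option.elim_some]
    push_cast
    simp only [one_mul]
  · intro γ μ
    have hω := wt_of hχ hd γ μ
    set A0 : Finset (Fin 3 × Fin 3 × Fin 3) :=
      univ.filter fun x => χ x.1 x.2.1 x.2.2 γ = μ ^ dg x.1 x.2.1 x.2.2 with hA0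
    have hlive : ∀ x : Fin 3 × Fin 3 × Fin 3, x ∈ A0 ↔
        χ x.1 x.2.1 x.2.2 γ * (μ ^ (dg x.1 x.2.1 x.2.2 : ℤ))⁻¹ = 1 := by
      intro x
      rw [eq_pow_iff, hA0]
      simp
    have hfun : (fun x : Fin 3 × Fin 3 × Fin 3 =>
        χ x.1 x.2.1 x.2.2 γ = μ ^ dg x.1 x.2.1 x.2.2) = fun x =>
        χ x.1 x.2.1 x.2.2 γ * (μ ^ (dg x.1 x.2.1 x.2.2 : ℤ))⁻¹ = 1 := by
      funext x
      rw [eq_pow_iff]
    have hEA : ∀ E : Finset (Option (Fin 3 × Fin 3 × Fin 3)), (∀ p, p ∈ E ↔
        (p.elim Ξ fun x => χ x.1 x.2.1 x.2.2) γ = μ ^ (p.elim D fun x => dg x.1 x.2.1 x.2.2)) →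
        A0.card ≤ E.card ∧ (Ξ γ = μ ^ D → A0.card + 1 ≤ E.card) := by
      intro E hE
      have h1 : A0.map Function.Embedding.some ⊆ E := by
        intro p hp
        rw [Finset.mem_map] at hp
        obtain ⟨x, hx, rfl⟩ := hp
        rw [hE]
        rw [hA0] at hx
        simpa using hx
      constructor
      · have := Finset.card_le_card h1
        rwa [Finset.card_map] at this
      · intro h2
        have h3 : insert none (A0.map Function.Embedding.some) ⊆ E := by
          intro p hp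
          rw [Finset.mem_insert] at hp
          rcases hp with rfl | hp
          · rw [hE]; exact h2
          · exact h1 hp
        have h4 := Finset.card_le_card h3
        rw [Finset.card_insert_of_notMem (by simp), Finset.card_map] at h4
        exact h4
    rcases A0.eq_empty_or_nonempty with h0 | h0
    · refine ⟨∅, cay_ext_empty _, ?_⟩
      intro A hA E hE
      have h1 : A = A0 := by
        ext x
        rw [hA x, hA0]
        simp
      rw [h1, h0]
      simp
    · obtain ⟨v, hv, hcount⟩ := exists_vertex A0 h0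
      refine ⟨A0.filter fun x => ¬ coll v x, ?_, ?_⟩
      · rw [hfun]
        refine cay_ext hω v ((hlive v).1 hv) _ ?_
        intro x
        rw [Finset.mem_filter, hlive x]
      · intro A hA E hE
        have h1 : A = A0 := by
          ext x
          rw [hA x, hA0]
          simp
        obtain ⟨h2, h3⟩ := hEA E hE
        have h4 := Finset.card_filter_add_card_filter_not (s := A0) (coll v)
        rw [h1, Finset.sum_const, smul_eq_mul, mul_one]
        refine ⟨Finset.card_filter_le _ _, ?_⟩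
        rcases hcount with h5 | ⟨h5, x, hx, hvx, ht⟩
        · omega
        · have h6 : Ξ γ = μ ^ D := by
            have h7 := hω.third v x hvx
            rw [(hlive v).1 hv, (hlive x).1 hx, (hlive _).1 ht, one_mul, one_mul] at h7
            rw [← eq_pow_iff]
            exact h7.symm
          have := h3 h6
          omega

end Pool.Agent.R837.FQ
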