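import Pool.Agent.R837.FE.Dim
import Pool.Agent.TH144.NV.Basic

/-!
# The number of coordinates in a subspace which meets the cone only in the origin, for formats
-/

set_option autoImplicit false
set_option linter.unusedSectionVars false

namespace Pool.Agent.R837.FQ

open Finset MvPolynomial

/-- The coordinates in `P` can be chosen freely among the points of the format with support in
`live`. -/
def Ext (k : Type) [Field k] {K J : Type} (g : J → MvPolynomial K k) (live : K → Prop)
    (P : Finset K) : Prop :=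
  ∀ (L : Type) [Field L] [Algebra k L] (u : K → L),
    AlgebraicIndependent k (fun x : {x // x ∈ P} => u x.1) →
    ∃ z : K → L, (∀ x ∈ P, z x = u x) ∧ (∀ x, ¬ live x → z x = 0) ∧ ∀ j, aeval z (g j) = 0

theorem rename_hom {k σ τ : Type} [Field k] {w : σ → ℕ} {W : τ → ℕ} (f : σ → τ)
    (hf : ∀ i, W (f i) = w i) (p : MvPolynomial σ k) (m : ℕ) (h : IsWeightedHomogeneous w p m) :
    IsWeightedHomogeneous W (rename f p) m := by
  intro d hd
  obtain ⟨d', rfl, hd'⟩ := coeff_rename_ne_zero f p d hd
  have h1 := h hd'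
  rw [← h1, Finsupp.weight_apply, Finsupp.weight_apply,
    Finsupp.sum_mapDomain_index (by simp) (by intro a b c; rw [add_smul])]
  simp only [hf]

open Classical in
/-- the number of coordinates -/
theorem key {k : Type} [Field k] [IsAlgClosed k] {N : ℕ} (w : Fin N → ℕ)
    (hw : ∀ i, 0 < w i) (T : Finset (Fin N)) {Λ : Type} [Fintype Λ] (K : Λ → Type)
    [∀ l, Fintype (K l)] (J : Λ → Type) (g : ∀ l, J l → MvPolynomial (K l) k)
    (M : ∀ l, K l → MvPolynomial (Fin N) k) (dg : ∀ l, K l → ℕ) (hdg0 : ∀ l x, 0 < dg l x)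
    (hhom : ∀ l x, IsWeightedHomogeneous w (M l x) (dg l x))
    (hg : ∀ l j, ∃ m, IsWeightedHomogeneous (dg l) (g l j) m)
    (live : ∀ l, K l → Prop)
    (hvan : ∀ l x, ¬ live l x → ∀ p : Fin N → k, (∀ i, i ∉ T → p i = 0) → eval p (M l x) = 0)
    (P : ∀ l, Finset (K l)) (hext : ∀ l, Ext k (g l) (live l) (P l))
    (h0 : ∀ p : Fin N → k, (∀ i, i ∉ T → p i = 0) →
      (∀ l j, eval (fun x => eval p (M l x)) (g l j) = 0) → p = 0) :
    T.card + ∑ l, (P l).card ≤ ∑ l, (univ.filter (live l)).card := by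
  let τ := Fin N ⊕ (Σ l, K l)
  let W : τ → ℕ := Sum.elim w fun x => dg x.1 x.2
  let φ := {i // i ∉ T} ⊕ (Σ l, {x : K l // live l x})
  let F : φ → MvPolynomial τ k := Sum.elim (fun i => X (Sum.inl i.1)) fun x =>
    rename Sum.inl (M x.1 x.2.1) - X (Sum.inr ⟨x.1, x.2.1⟩)
  let D : φ → ℕ := Sum.elim (fun i => w i.1) fun x => dg x.1 x.2.1
  let ι := (Σ l, J l) ⊕ (Σ l, {x : K l // ¬ live l x})
  let g' : ι → MvPolynomial τ k := Sum.elim
    (fun x => rename (fun y => (Sum.inr ⟨x.1, y⟩ : τ)) (g x.1 x.2)) fun x => X (Sum.inr ⟨x.1, x.2.1⟩)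
  have hg' : ∀ j : ι, ∃ m, IsWeightedHomogeneous W (g' j) m := by
    rintro (⟨l, j⟩ | ⟨l, x⟩)
    · obtain ⟨m, hm⟩ := hg l j
      exact ⟨m, rename_hom (w := dg l) (fun y => (Sum.inr ⟨l, y⟩ : τ)) (fun _ => rfl) _ _ hm⟩
    · exact ⟨_, isWeightedHomogeneous_X k W _⟩
  choose m hm using hg'
  -- the generic point
  let L := FractionRing (MvPolynomial τ k)
  let u : τ → L := fun i => algebraMap (MvPolynomial τ k) L (X i)
  have hu : AlgebraicIndependent k u := by
    have h1 := MvPolynomial.algebraicIndependent_X τ k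
    have h2 := h1.map' (f := IsScalarTower.toAlgHom k (MvPolynomial τ k) L)
      (IsFractionRing.injective (MvPolynomial τ k) L)
    exact h2
  have hgen : ∀ l, ∃ z : K l → L, (∀ x ∈ P l, z x = u (Sum.inr ⟨l, x⟩)) ∧
      (∀ x, ¬ live l x → z x = 0) ∧ ∀ j, aeval z (g l j) = 0 := by
    intro l
    let fl : {x : K l // x ∈ P l} → τ := fun x => Sum.inr ⟨l, x.1⟩
    have hfl : Function.Injective fl := by
      intro x y h
      apply Subtype.ext
      have h1 : (⟨l, x.1⟩ : Σ l, K l) = ⟨l, y.1⟩ := Sum.inr_injective h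
      simpa using h1
    exact hext l L (fun x => u (Sum.inr ⟨l, x⟩)) (hu.comp fl hfl)
  choose z hz hzl hzg using hgen
  let y : τ → L := Sum.elim (fun i => u (Sum.inl i)) fun x => z x.1 x.2
  let ι0 := Fin N ⊕ (Σ l, {x : K l // x ∈ P l})
  let em : ι0 → τ := Sum.elim Sum.inl fun x => Sum.inr ⟨x.1, x.2.1⟩
  have hem : Function.Injective em := by
    rintro (i | ⟨l, x⟩) (j | ⟨l', x'⟩) h
    · exact congrArg Sum.inl (Sum.inl_injective h)
    · exact absurd h Sum.inl_ne_inr
    · exact absurd h Sum.inr_ne_inl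
    · have h1 : (⟨l, x.1⟩ : Σ l, K l) = ⟨l', x'.1⟩ := Sum.inr_injective h
      obtain rfl : l = l' := congrArg Sigma.fst h1
      have h2 : x.1 = x'.1 := by simpa using h1
      rw [Subtype.ext h2]
  have hyem : (fun i => y (em i)) = fun i => u (em i) := by
    funext i
    rcases i with i | ⟨l, x⟩
    · rfl
    · exact hz l x.1 x.2
  have hcard := Pool.Agent.R837.FE.card_le (k := k) W F D (by
      rintro (i | ⟨l, x⟩)
      · exact hw i.1
      · exact hdg0 l x.1) (by
      rintro (i | ⟨l, x⟩)
      · exact isWeightedHomogeneous_X k W (Sum.inl i.1)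
      · exact (rename_hom (w := w) (W := W) Sum.inl (fun _ => rfl) _ _ (hhom l x.1)).sub
          (isWeightedHomogeneous_X k W (Sum.inr ⟨l, x.1⟩)))
    g' m hm (by
      intro x hF hgx
      set p : Fin N → k := fun i => x (Sum.inl i) with hp
      have hpT : ∀ i, i ∉ T → p i = 0 := by
        intro i hi
        have := hF (Sum.inl ⟨i, hi⟩)
        simpa [F] using this
      have hx : ∀ l κ, x (Sum.inr ⟨l, κ⟩) = eval p (M l κ) := by
        intro l κ
        by_cases hl : live l κ
        · have := hF (Sum.inr ⟨l, ⟨κ, hl⟩⟩)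
          simp only [F, Sum.elim_inr, map_sub, eval_X, eval_rename] at this
          exact (sub_eq_zero.1 this).symm
        · have h1 := hgx (Sum.inr ⟨l, ⟨κ, hl⟩⟩)
          simp only [g', Sum.elim_inr, eval_X] at h1
          rw [h1, hvan l κ hl p hpT]
      have hp0 : p = 0 := by
        apply h0 p hpT
        intro l j
        have h1 := hgx (Sum.inl ⟨l, j⟩)
        simp only [g', Sum.elim_inl, eval_rename] at h1
        rw [← h1]
        congr 2
        funext κ
        exact (hx l κ).symm
      funext i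
      rcases i with i | ⟨l, κ⟩
      · exact congrFun hp0 i
      · rw [hx l κ, hp0]
        exact Pool.Agent.TH144.NV.eval_origin (hhom l κ) (hdg0 l κ))
    y (by
      rintro (⟨l, j⟩ | ⟨l, x⟩)
      · simp only [g', Sum.elim_inl, aeval_rename]
        rw [← hzg l j]
        rfl
      · simp only [g', Sum.elim_inr, aeval_X]
        exact hzl l x.1 x.2)
    em (by
      rw [hyem]
      exact hu.comp em hem)
  have h1 : Fintype.card ι0 = N + ∑ l, (P l).card := by
    simp only [ι0, Fintype.card_sum, Fintype.card_sigma, Fintype.card_coe, Fintype.card_fin]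
  have h2 : Fintype.card φ = (N - T.card) + ∑ l, (univ.filter (live l)).card := by
    simp only [φ, Fintype.card_sum, Fintype.card_sigma]
    congr 1
    · rw [Fintype.card_subtype_compl, Fintype.card_coe, Fintype.card_fin]
    · exact Finset.sum_congr rfl fun l _ => Fintype.card_subtype _
  rw [h1, h2] at hcard
  have h3 := Finset.card_le_univ T
  rw [Fintype.card_fin] at h3
  omega

end Pool.Agent.R837.FQ
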