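import Pool.Agent.R837.FQ.Total

/-!
# Formats which contain coordinate subspaces
-/

set_option autoImplicit false
set_option linter.unusedSectionVars false

namespace Pool.Agent.R837.FQ

open Finset MvPolynomial Pool.Agent.TH144.NV

theorem lin_ext {k : Type} [Field k] [Infinite k] {K J : Type} [Fintype K]
    (g : J → MvPolynomial K k) (F : Finset K)
    (hF : ∀ j (p : K → k), (∀ x, x ∉ F → p x = 0) → eval p (g j) = 0)
    (live : K → Prop) (P : Finset K) (hP : ∀ x ∈ P, x ∈ F ∧ live x) :
    Ext k g live P := by
  classical
  intro L _ _ u _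
  refine ⟨fun x => if x ∈ P then u x else 0, fun x hx => if_pos hx,
    fun x hx => if_neg fun h => hx (hP x h).2, fun j => ?_⟩
  -- the equation vanishes identically on the subspace
  have h1 : (aeval fun x => if x ∈ P then (X x : MvPolynomial K k) else 0) (g j) = 0 := by
    apply MvPolynomial.funext
    intro p
    rw [map_zero]
    have h2 : eval p ((aeval fun x => if x ∈ P then (X x : MvPolynomial K k) else 0) (g j)) =
        eval (fun x => if x ∈ P then p x else 0) (g j) := by
      induction g j using MvPolynomial.induction_on with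
      | C c => simp
      | add a b ha hb => simp only [map_add, ha, hb]
      | mul_X a i ha =>
        simp only [map_mul, ha, aeval_X, eval_X]
        congr 1
        split_ifs <;> simp
    rw [h2]
    apply hF
    intro x hx
    exact if_neg fun h => hx (hP x h).1
  have h3 : aeval (fun x => if x ∈ P then u x else 0) (g j) =
      aeval u ((aeval fun x => if x ∈ P then (X x : MvPolynomial K k) else 0) (g j)) := by
    induction g j using MvPolynomial.induction_on with
    | C c => simp
    | add a b ha hb => simp only [map_add, ha, hb]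
    | mul_X a i ha =>
      simp only [map_mul, ha, aeval_X]
      congr 1
      split_ifs <;> simp
  rw [h3, h1, map_zero]

/-- the block of a format which contains coordinate subspaces -/
theorem exists_bd_lin {k : Type} [Field k] [CharZero k] {G : Type} [Group G] {N : ℕ}
    {w : Fin N → ℕ} {α : Fin N → G →* kˣ} {K J : Type} [Fintype K] [DecidableEq K]
    (dg : K → ℕ) (pos : ∀ x, 0 < dg x) (χ : K → G →* kˣ) (M : K → MvPolynomial (Fin N) k)
    (hom : ∀ x, IsWeightedHomogeneous w (M x) (dg x))
    (semi : ∀ γ x, act (fun i => (α i γ : k)) (M x) = C ((χ x γ : kˣ) : k) * M x)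
    (g : J → MvPolynomial K k) (hg : ∀ j, ∃ m, IsWeightedHomogeneous dg (g j) m)
    {s : ℕ} (hs : 0 < s) (F : Fin s → Finset K)
    (hF : ∀ a j (p : K → k), (∀ x, x ∉ F a → p x = 0) → eval p (g j) = 0)
    (top : ℤ) (htop : (s : ℤ) * top = ∑ a, ∑ x ∈ univ.filter (fun x => x ∉ F a), (dg x : ℤ)) :
    Nonempty (BD k G N w α (2 * top) fun p =>
      ∀ j, eval (fun x => eval p (M x)) (g j) = 0) := by
  classical
  refine ⟨{
    K := K
    ftK := inferInstance
    J := J
    g := g
    M := M
    dg := dg
    dg_pos := pos
    hom := hom
    hg := hg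
    χ := χ
    semi := semi
    rank := fun p hp => hp
    P := K
    ftP := inferInstance
    c := fun x => (univ.filter fun a => x ∉ F a).card
    d := dg
    hd := pos
    X := χ
    q := s
    hq := hs
    htop := ?_
    pat := ?_ }⟩
  · rw [mul_left_comm, htop]
    congr 1
    have h1 : ∀ a, ∑ x ∈ univ.filter (fun x => x ∉ F a), (dg x : ℤ) =
        ∑ x, if x ∉ F a then (dg x : ℤ) else 0 := fun a => Finset.sum_filter _ _
    rw [Finset.sum_congr rfl fun a _ => h1 a, Finset.sum_comm]
    refine Finset.sum_congr rfl fun x _ => ?_
    rw [← Finset.sum_filter, Finset.sum_const, nsmul_eq_mul]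
  · intro γ μ
    set A0 : Finset K := univ.filter fun x => χ x γ = μ ^ dg x with hA0
    -- the best subspace
    have hbest : ∃ a, s * (A0.filter fun x => x ∉ F a).card ≤
        ∑ x ∈ A0, (univ.filter fun a => x ∉ F a).card := by
      by_contra hcon
      push Not at hcon
      have h1 : ∑ a, (A0.filter fun x => x ∉ F a).card =
          ∑ x ∈ A0, (univ.filter fun a => x ∉ F a).card := by
        simp only [Finset.card_filter]
        exact Finset.sum_comm
      have : Nonempty (Fin s) := ⟨⟨0, hs⟩⟩
      have h2 : ∑ _a : Fin s, ∑ x ∈ A0, (univ.filter fun a => x ∉ F a).card <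
          ∑ a, s * (A0.filter fun x => x ∉ F a).card :=
        Finset.sum_lt_sum_of_nonempty univ_nonempty fun a _ => hcon a
      rw [Finset.sum_const, Finset.card_univ, Fintype.card_fin, smul_eq_mul, ← Finset.mul_sum,
        h1] at h2
      exact lt_irrefl _ h2
    obtain ⟨a, ha⟩ := hbest
    refine ⟨A0.filter fun x => x ∈ F a, lin_ext g (F a) (hF a) _ _ ?_, ?_⟩
    · intro x hx
      rw [Finset.mem_filter, hA0, Finset.mem_filter] at hx
      exact ⟨hx.2, hx.1.2⟩
    · intro A hA E hE
      have h1 : A = A0 := by
        ext x
        rw [hA x, hA0]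
        simp
      have h2 : E = A0 := by
        ext x
        rw [hE x, hA0]
        simp
      have h3 := Finset.card_filter_add_card_filter_not (s := A0) (fun x => x ∈ F a)
      rw [h1, h2]
      refine ⟨Finset.card_filter_le _ _, ?_⟩
      have h4 : A0.card - (A0.filter fun x => x ∈ F a).card =
          (A0.filter fun x => x ∉ F a).card := by omega
      rw [h4]
      exact ha

end Pool.Agent.R837.FQ
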