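import Pool.Agent.R837.FQ.Total

/-!
# The format of the tensors of rank one
-/

set_option autoImplicit false
set_option linter.unusedSectionVars false

namespace Pool.Agent.R837.FQ

open Finset MvPolynomial Pool.Agent.TH144.NV

section
variable {m n : ℕ}

/-- the first index tuple with its `j`-th entry taken from the second -/
def swp (I J : Fin m → Fin n) (j : Fin m) : Fin m → Fin n := Function.update I j (J j)

theorem swp_apply (I J : Fin m → Fin n) (j j' : Fin m) :
    swp I J j j' = if j' = j then J j' else I j' := by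
  unfold swp
  by_cases h : j' = j
  · subst h; simp
  · rw [if_neg h, Function.update_of_ne h]

theorem sum_apply_eq {A : Type*} [AddCommMonoid A] (f : Fin n → A) (j : Fin m) :
    ∑ I : Fin m → Fin n, f (I j) = n ^ (m - 1) • ∑ i, f i := by
  classical
  rw [← (Equiv.funSplitAt j (Fin n)).symm.sum_comp]
  rw [Fintype.sum_prod_type]
  have h1 : ∀ (i : Fin n) (g : {j' // j' ≠ j} → Fin n),
      f (((Equiv.funSplitAt j (Fin n)).symm (i, g)) j) = f i := by
    intro i g
    simp [Equiv.funSplitAt, Equiv.piSplitAt]
  simp only [h1, Finset.sum_const, Finset.card_univ, Fintype.card_pi, Fintype.card_fin,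
    Finset.prod_const]
  rw [← Finset.smul_sum]
  congr 2
  rw [Fintype.card_subtype_compl, Fintype.card_fin]
  simp

/-- the coordinates on the line of direction `j0` through `I0` -/
def Lin (j0 : Fin m) (I0 x : Fin m → Fin n) : Prop := ∀ j, j ≠ j0 → x j = I0 j

instance (j0 : Fin m) (I0 x : Fin m → Fin n) : Decidable (Lin j0 I0 x) := by
  unfold Lin; infer_instance

theorem card_lin (j0 : Fin m) (x : Fin m → Fin n) :
    (univ.filter fun I0 : Fin m → Fin n => Lin j0 I0 x).card = n := by
  classical
  have h1 : (univ.filter fun I0 : Fin m → Fin n => Lin j0 I0 x) =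
      univ.image fun i : Fin n => Function.update x j0 i := by
    ext I0
    simp only [mem_filter, mem_univ, true_and, mem_image, Lin]
    constructor
    · intro h
      refine ⟨I0 j0, ?_⟩
      funext j
      by_cases hj : j = j0
      · subst hj; simp
      · rw [Function.update_of_ne hj]; exact h j hj
    · rintro ⟨i, rfl⟩ j hj
      rw [Function.update_of_ne hj]
  rw [h1, Finset.card_image_of_injective _ (Function.update_injective x j0), Finset.card_univ,
    Fintype.card_fin]

theorem exists_line (j0 : Fin m) (hn : 0 < n) (A : Finset (Fin m → Fin n)) :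
    ∃ I0 : Fin m → Fin n, n * A.card ≤ n ^ m * (A.filter fun x => Lin j0 I0 x).card := by
  classical
  by_contra hcon
  push Not at hcon
  have h1 : ∑ I0 : Fin m → Fin n, (A.filter fun x => Lin j0 I0 x).card = n * A.card := by
    have h2 : ∀ I0 : Fin m → Fin n, (A.filter fun x => Lin j0 I0 x).card =
        ∑ x ∈ A, if Lin j0 I0 x then 1 else 0 := fun I0 => by
      rw [Finset.card_filter]
    rw [Finset.sum_congr rfl fun I0 _ => h2 I0, Finset.sum_comm]
    have h3 : ∀ x ∈ A, ∑ I0 : Fin m → Fin n, (if Lin j0 I0 x then 1 else 0) = n := by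
      intro x _
      rw [← Finset.card_filter]
      exact card_lin j0 x
    rw [Finset.sum_congr rfl h3, Finset.sum_const, smul_eq_mul, mul_comm]
  have hcard : Fintype.card (Fin m → Fin n) = n ^ m := by simp
  have h4 : ∑ I0 : Fin m → Fin n, n ^ m * (A.filter fun x => Lin j0 I0 x).card <
      ∑ _I0 : Fin m → Fin n, n * A.card :=
    Finset.sum_lt_sum_of_nonempty ⟨fun _ => ⟨0, hn⟩, mem_univ _⟩ fun I0 _ => hcon I0
  rw [← Finset.mul_sum, h1, Finset.sum_const, Finset.card_univ, hcard, smul_eq_mul] at h4
  exact lt_irrefl _ h4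

/-- the equations of the tensors of rank one -/
noncomputable def segEq (k : Type) [Field k] (m n : ℕ)
    (x : (Fin m → Fin n) × (Fin m → Fin n) × Fin m) : MvPolynomial (Fin m → Fin n) k :=
  X x.1 * X x.2.1 - X (swp x.1 x.2.1 x.2.2) * X (swp x.2.1 x.1 x.2.2)

theorem seg_ext (k : Type) [Field k] (j0 : Fin m) (I0 : Fin m → Fin n)
    (A : Finset (Fin m → Fin n)) (live : (Fin m → Fin n) → Prop) (hA : ∀ x, x ∈ A ↔ live x) :
    Ext k (segEq k m n) live (A.filter fun x => Lin j0 I0 x) := by
  classical
  intro L _ _ u _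
  refine ⟨fun x => if x ∈ A.filter (fun x => Lin j0 I0 x) then u x else 0, ?_, ?_, ?_⟩
  · intro x hx
    exact if_pos hx
  · intro x hx
    exact if_neg fun h => hx ((hA x).1 (Finset.mem_filter.1 h).1)
  · rintro ⟨I, J, j⟩
    simp only [segEq, map_sub, map_mul, aeval_X]
    rw [sub_eq_zero]
    set z : (Fin m → Fin n) → L :=
      fun x => if x ∈ A.filter (fun x => Lin j0 I0 x) then u x else 0 with hz
    have hz0 : ∀ x, ¬ Lin j0 I0 x → z x = 0 := by
      intro x hx
      rw [hz]
      simp only
      rw [if_neg]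
      intro h
      exact hx (Finset.mem_filter.1 h).2
    show z I * z J = z (swp I J j) * z (swp J I j)
    by_cases hj : j = j0
    · subst hj
      by_cases h : Lin j I0 I ∧ Lin j I0 J
      · have h1 : swp I J j = J := by
          funext j'
          rw [swp_apply]
          split_ifs with h2
          · rfl
          · rw [h.1 j' h2, h.2 j' h2]
        have h2 : swp J I j = I := by
          funext j'
          rw [swp_apply]
          split_ifs with h2
          · rfl
          · rw [h.1 j' h2, h.2 j' h2]
        rw [h1, h2, mul_comm]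
      · have h1 : ∀ I J : Fin m → Fin n, Lin j I0 (swp I J j) ↔ Lin j I0 I := by
          intro I J
          constructor
          · intro h j' hj'
            rw [← h j' hj', swp_apply, if_neg hj']
          · intro h j' hj'
            rw [swp_apply, if_neg hj', h j' hj']
        rw [not_and_or] at h
        rcases h with h | h
        · rw [hz0 I h, hz0 (swp I J j) (by rwa [h1]), zero_mul, zero_mul]
        · rw [hz0 J h, hz0 (swp J I j) (by rwa [h1]), mul_zero, mul_zero]
    · by_cases h : I j = J j
      · have h1 : swp I J j = I := by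
          funext j'
          rw [swp_apply]
          split_ifs with h2
          · rw [h2, h]
          · rfl
        have h2 : swp J I j = J := by
          funext j'
          rw [swp_apply]
          split_ifs with h2
          · rw [h2, h]
          · rfl
        rw [h1, h2]
      · have h1 : z I * z J = 0 := by
          by_cases h2 : Lin j0 I0 I
          · by_cases h3 : Lin j0 I0 J
            · exact absurd ((h2 j hj).trans (h3 j hj).symm) h
            · rw [hz0 J h3, mul_zero]
          · rw [hz0 I h2, zero_mul]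
        have h1' : z (swp I J j) * z (swp J I j) = 0 := by
          by_cases h2 : Lin j0 I0 (swp I J j)
          · by_cases h3 : Lin j0 I0 (swp J I j)
            · have h4 := h2 j hj
              have h5 := h3 j hj
              rw [swp_apply, if_pos rfl] at h4 h5
              exact absurd (h5.trans h4.symm) h
            · rw [hz0 _ h3, mul_zero]
          · rw [hz0 _ h2, zero_mul]
        rw [h1, h1']

theorem swp_sum {A : Type*} [CommMonoid A] (a : Fin m → Fin n → A) (I J : Fin m → Fin n)
    (j : Fin m) : (∏ i, a i (swp I J j i)) * ∏ i, a i (swp J I j i) =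
      (∏ i, a i (I i)) * ∏ i, a i (J i) := by
  rw [← Finset.prod_mul_distrib, ← Finset.prod_mul_distrib]
  refine Finset.prod_congr rfl fun i _ => ?_
  rw [swp_apply, swp_apply]
  split_ifs
  · exact mul_comm _ _
  · rfl

end

/-- the block of a tensor of rank one -/
theorem exists_bd_segre {k : Type} [Field k] [CharZero k] {G : Type} [Group G] {N : ℕ}
    {w : Fin N → ℕ} {α : Fin N → G →* kˣ} {m n : ℕ} (hn : 0 < n)
    (a : Fin (m + 1) → Fin n → ℤ) (ψ : Fin (m + 1) → Fin n → G →* kˣ)
    (M : (Fin (m + 1) → Fin n) → MvPolynomial (Fin N) k)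
    (pos : ∀ I : Fin (m + 1) → Fin n, 0 < ∑ j, a j (I j))
    (hom : ∀ (I : Fin (m + 1) → Fin n) (d : ℕ), (d : ℤ) = ∑ j, a j (I j) → IsWeightedHomogeneous w (M I) d)
    (semi : ∀ (γ : G) (I : Fin (m + 1) → Fin n), act (fun i => (α i γ : k)) (M I) = C ((∏ j, ψ j (I j) γ : kˣ) : k) * M I) :
    Nonempty (BD k G N w α (2 * ((n : ℤ) ^ m - 1) * ∑ j, ∑ i, a j i) fun p =>
      ∀ (I J : Fin (m + 1) → Fin n) (j : Fin (m + 1)), eval p (M I) * eval p (M J) = eval p (M (swp I J j)) * eval p (M (swp J I j))) := by
  classical
  have hd : ∀ I : Fin (m + 1) → Fin n, (((∑ j, a j (I j)).toNat : ℕ) : ℤ) = ∑ j, a j (I j) :=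
    fun I => Int.toNat_of_nonneg (pos I).le
  refine ⟨{
    K := Fin (m + 1) → Fin n
    ftK := inferInstance
    J := (Fin (m + 1) → Fin n) × (Fin (m + 1) → Fin n) × Fin (m + 1)
    g := segEq k (m + 1) n
    M := M
    dg := fun I => (∑ j, a j (I j)).toNat
    dg_pos := fun I => by have := pos I; omega
    hom := fun I => hom I _ (hd I)
    hg := ?_
    χ := fun I => ∏ j, ψ j (I j)
    semi := ?_
    rank := ?_
    P := Fin (m + 1) → Fin n
    ftP := inferInstance
    c := fun _ => n ^ (m + 1) - n
    d := fun I => (∑ j, a j (I j)).toNat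
    hd := fun I => by have := pos I; omega
    X := fun I => ∏ j, ψ j (I j)
    q := n ^ (m + 1)
    hq := pow_pos hn _
    htop := ?_
    pat := ?_ }⟩
  · rintro ⟨I, J, j⟩
    refine ⟨(∑ j, a j (I j)).toNat + (∑ j, a j (J j)).toNat, ?_⟩
    unfold segEq
    refine IsWeightedHomogeneous.sub ((isWeightedHomogeneous_X k _ _).mul
      (isWeightedHomogeneous_X k _ _)) ?_
    have h1 : (∑ i, a i (I i)).toNat + (∑ i, a i (J i)).toNat =
        (∑ i, a i (swp I J j i)).toNat + (∑ i, a i (swp J I j i)).toNat := by
      have h2 := swp_sum (A := Multiplicative ℤ) (fun i x => Multiplicative.ofAdd (a i x)) I J j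
      have h3 : (∑ i, a i (swp I J j i)) + ∑ i, a i (swp J I j i) =
          (∑ i, a i (I i)) + ∑ i, a i (J i) := by
        simpa [← ofAdd_sum, ← ofAdd_add] using h2
      have h4 := hd I
      have h5 := hd J
      have h6 := hd (swp I J j)
      have h7 := hd (swp J I j)
      omega
    rw [h1]
    exact (isWeightedHomogeneous_X k _ _).mul (isWeightedHomogeneous_X k _ _)
  · intro γ I
    rw [semi γ I]
    simp
  · intro p hp I J j
    have h1 := hp (I, J, j)
    simp only [segEq, map_sub, map_mul, eval_X] at h1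
    exact sub_eq_zero.1 h1
  · have h1 : ∑ I : Fin (m + 1) → Fin n, ∑ j, a j (I j) = (n : ℤ) ^ m * ∑ j, ∑ i, a j i := by
      rw [Finset.sum_comm, Finset.mul_sum]
      refine Finset.sum_congr rfl fun j _ => ?_
      rw [sum_apply_eq (a j) j]
      simp
    have h2 : ∀ I : Fin (m + 1) → Fin n, (((n ^ (m + 1) - n : ℕ) : ℤ)) *
        (((∑ j, a j (I j)).toNat : ℕ) : ℤ) = ((n : ℤ) ^ (m + 1) - n) * ∑ j, a j (I j) := by
      intro I
      rw [hd I, Nat.cast_sub (Nat.le_self_pow (by omega) n)]
      push_cast
      rfl
    rw [Finset.sum_congr rfl fun I _ => h2 I, ← Finset.mul_sum, h1]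
    push_cast
    ring
  · intro γ μ
    set A0 : Finset (Fin (m + 1) → Fin n) :=
      univ.filter fun x => (∏ j, ψ j (x j)) γ = μ ^ (∑ j, a j (x j)).toNat with hA0
    obtain ⟨I0, hI0⟩ := exists_line (0 : Fin (m + 1)) hn A0
    refine ⟨A0.filter fun x => Lin 0 I0 x, seg_ext k 0 I0 A0 _ (fun x => by simp [hA0]), ?_⟩
    intro A hA E hE
    have h1 : A = A0 := by
      ext x
      rw [hA x, hA0]
      simp
    have h2 : E = A0 := by
      ext x
      rw [hE x, hA0]
      simp
    rw [h1, h2]
    have h3 := Finset.card_filter_le A0 fun x => Lin 0 I0 x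
    refine ⟨h3, ?_⟩
    rw [Finset.sum_const, smul_eq_mul, Nat.mul_sub, Nat.mul_sub, mul_comm A0.card (n ^ (m + 1)),
      mul_comm A0.card n]
    omega

end Pool.Agent.R837.FQ
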