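import Pool.Agent.R837.FQ.Cayley2

/-!
# The spinor variety as a part of the Cayley plane
-/

set_option autoImplicit false
set_option linter.unusedSectionVars false

namespace Pool.Agent.R837.FQ

open Finset

/-- the sixteen coordinates among the twenty-seven, with signs -/
def m27 {R : Type*} [Zero R] [Neg R] (a : Fin 16 → R) : Fin 3 → Fin 3 → Fin 3 → R :=
  ![![![0, -a 0, a 3], ![-a 14, 0, 0], ![a 11, 0, 0]],
    ![![0, 0, 0], ![a 12, a 13, a 15], ![a 9, -a 7, a 5]],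
    ![![0, a 6, a 1], ![0, a 8, a 2], ![0, -a 10, a 4]]]

/-- the places of the coordinates -/
def s16 : Fin 16 → Fin 3 × Fin 3 × Fin 3 :=
  ![(0, 0, 1), (2, 0, 2), (2, 1, 2), (0, 0, 2), (2, 2, 2), (1, 2, 2), (2, 0, 1), (1, 2, 1),
    (2, 1, 1), (1, 2, 0), (2, 2, 1), (0, 2, 0), (1, 1, 0), (1, 1, 1), (0, 1, 0), (1, 1, 2)]

/-- the signs of the coordinates -/
def e16 : Fin 16 → ℤ := ![-1, 1, 1, 1, 1, 1, 1, -1, 1, 1, -1, 1, 1, 1, -1, 1]

theorem s16_injective : Function.Injective s16 := by decide +kernel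

theorem e16_sq : ∀ b, e16 b * e16 b = 1 := by decide +kernel

theorem m27_s16 {R : Type*} [Ring R] (a : Fin 16 → R) (b : Fin 16) :
    m27 a (s16 b).1 (s16 b).2.1 (s16 b).2.2 = e16 b * a b := by
  fin_cases b <;> simp [m27, s16, e16]

theorem m27_off {R : Type*} [Ring R] (a : Fin 16 → R) (t i j : Fin 3)
    (h : ∀ b, s16 b ≠ (t, i, j)) : m27 a t i j = 0 := by
  fin_cases t <;> fin_cases i <;> fin_cases j <;>
    first
    | rfl
    | exact absurd rfl (h 0) | exact absurd rfl (h 1) | exact absurd rfl (h 2)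
    | exact absurd rfl (h 3) | exact absurd rfl (h 4) | exact absurd rfl (h 5)
    | exact absurd rfl (h 6) | exact absurd rfl (h 7) | exact absurd rfl (h 8)
    | exact absurd rfl (h 9) | exact absurd rfl (h 10) | exact absurd rfl (h 11)
    | exact absurd rfl (h 12) | exact absurd rfl (h 13) | exact absurd rfl (h 14)
    | exact absurd rfl (h 15)

theorem m27_of {R : Type*} [Ring R] (z : Fin 3 → Fin 3 → Fin 3 → R)
    (hz : ∀ t i j, (∀ b, s16 b ≠ (t, i, j)) → z t i j = 0) :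
    m27 (fun b => (e16 b : R) * z (s16 b).1 (s16 b).2.1 (s16 b).2.2) = z := by
  funext t i j
  by_cases h : ∀ b, s16 b ≠ (t, i, j)
  · rw [m27_off _ _ _ _ h, hz _ _ _ h]
  · push Not at h
    obtain ⟨b, hb⟩ := h
    have h1 := m27_s16 (fun b => (e16 b : R) * z (s16 b).1 (s16 b).2.1 (s16 b).2.2) b
    rw [hb] at h1
    have h2 : (e16 b : R) * e16 b = 1 := by
      rw [← Int.cast_mul, e16_sq, Int.cast_one]
    rw [h1, ← mul_assoc, h2, one_mul]

/-- the relations between the weights of the sixteen coordinates -/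
structure Sp {A : Type*} [Mul A] (v : Fin 16 → A) : Prop where
  h15a : v 0 * v 15 = v 3 * v 5
  h15b : v 0 * v 15 = v 2 * v 6
  h15c : v 0 * v 15 = v 1 * v 8
  h14a : v 0 * v 14 = v 4 * v 5
  h14b : v 0 * v 14 = v 2 * v 7
  h14c : v 0 * v 14 = v 1 * v 9
  h13a : v 0 * v 13 = v 3 * v 7
  h13b : v 0 * v 13 = v 1 * v 10
  h12 : v 0 * v 12 = v 3 * v 9
  h11 : v 0 * v 11 = v 5 * v 10

/-- the weights of the twenty-seven coordinates -/
def W27 {A : Type*} [CommGroup A] (v : Fin 16 → A) : Fin 3 → Fin 3 → Fin 3 → A :=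
  ![![![v 0 * v 11 * (v 1 * v 12), v 0, v 3],
      ![v 14, (v 3 * v 11)⁻¹, (v 0 * v 11)⁻¹],
      ![v 11, (v 1 * v 12)⁻¹, (v 0 * v 14)⁻¹]],
    ![![(v 1 * v 11)⁻¹, (v 2 * v 11)⁻¹, (v 4 * v 11)⁻¹],
      ![v 12, v 13, v 15],
      ![v 9, v 7, v 5]],
    ![![(v 0 * v 12)⁻¹, v 6, v 1],
      ![(v 0 * v 13)⁻¹, v 8, v 2],
      ![(v 0 * v 15)⁻¹, v 10, v 4]]]

theorem W27_s16 {A : Type*} [CommGroup A] (v : Fin 16 → A) (b : Fin 16) :
    W27 v (s16 b).1 (s16 b).2.1 (s16 b).2.2 = v b := by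
  fin_cases b <;> rfl

theorem wt27 {A : Type*} [CommGroup A] (v : Fin 16 → A) (h : Sp v) : Wt (W27 v) 1 := by
  have e15 : v 15 = v 3 * v 5 * (v 0)⁻¹ := by rw [← h.h15a, mul_comm (v 0), mul_inv_cancel_right]
  have e6 : v 6 = v 3 * v 5 * (v 2)⁻¹ := by
    rw [← h.h15a, h.h15b, mul_comm (v 2), mul_inv_cancel_right]
  have e8 : v 8 = v 3 * v 5 * (v 1)⁻¹ := by
    rw [← h.h15a, h.h15c, mul_comm (v 1), mul_inv_cancel_right]
  have e14 : v 14 = v 4 * v 5 * (v 0)⁻¹ := by rw [← h.h14a, mul_comm (v 0), mul_inv_cancel_right]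
  have e7 : v 7 = v 4 * v 5 * (v 2)⁻¹ := by
    rw [← h.h14a, h.h14b, mul_comm (v 2), mul_inv_cancel_right]
  have e9 : v 9 = v 4 * v 5 * (v 1)⁻¹ := by
    rw [← h.h14a, h.h14c, mul_comm (v 1), mul_inv_cancel_right]
  have e13 : v 13 = v 3 * (v 4 * v 5 * (v 2)⁻¹) * (v 0)⁻¹ := by
    rw [← e7, ← h.h13a, mul_comm (v 0), mul_inv_cancel_right]
  have e10 : v 10 = v 3 * (v 4 * v 5 * (v 2)⁻¹) * (v 1)⁻¹ := by
    rw [← e7, ← h.h13a, h.h13b, mul_comm (v 1), mul_inv_cancel_right]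
  have e12 : v 12 = v 3 * (v 4 * v 5 * (v 1)⁻¹) * (v 0)⁻¹ := by
    rw [← e9, ← h.h12, mul_comm (v 0), mul_inv_cancel_right]
  have e11 : v 11 = v 5 * (v 3 * (v 4 * v 5 * (v 2)⁻¹) * (v 1)⁻¹) * (v 0)⁻¹ := by
    rw [← e10, ← h.h11, mul_comm (v 0), mul_inv_cancel_right]
  refine ⟨?_, ?_, ?_⟩
  · intro t i j
    apply Additive.ofMul.injective
    fin_cases t <;> fin_cases i <;> fin_cases j <;>
      (simp [W27, e15, e6, e8, e14, e7, e9, e13, e10, e12, e11]; try abel)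
  · intro t i j
    apply Additive.ofMul.injective
    fin_cases t <;> fin_cases i <;> fin_cases j <;>
      (simp [W27, e15, e6, e8, e14, e7, e9, e13, e10, e12, e11]; try abel)
  · intro t i j l
    apply Additive.ofMul.injective
    fin_cases t <;> fin_cases i <;> fin_cases j <;> fin_cases l <;>
      (simp [W27, e15, e6, e8, e14, e7, e9, e13, e10, e12, e11]; try abel)

end Pool.Agent.R837.FQ
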