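import Pool.Agent.R837.FQ.Spinor
import Pool.Agent.R837.FQ.Cayley4

/-!
# The format of the spinor variety
-/

set_option autoImplicit false
set_option linter.unusedSectionVars false

namespace Pool.Agent.R837.FQ

open Finset MvPolynomial Pool.Agent.TH144.NV

theorem map_m27 {R S : Type*} [Ring R] [Ring S] (f : R →+* S) (a : Fin 16 → R) (t i j : Fin 3) :
    f (m27 a t i j) = m27 (fun b => f (a b)) t i j := by
  by_cases h : ∀ b, s16 b ≠ (t, i, j)
  · rw [m27_off _ _ _ _ h, m27_off _ _ _ _ h, map_zero]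
  · push Not at h
    obtain ⟨b, hb⟩ := h
    have h1 := m27_s16 a b
    have h2 := m27_s16 (fun b => f (a b)) b
    rw [hb] at h1 h2
    rw [h1, h2, map_mul, map_intCast]

theorem map_Qe {R S : Type} [CommRing R] [CommRing S] (f : R →+* S)
    (x : Fin 3 → Fin 3 → Fin 3 → R) (t i j : Fin 3) :
    f (Qe x t i j) = Qe (fun t i j => f (x t i j)) t i j := by
  unfold Qe
  simp only [map_sub, map_mul, map_sum]

/-- the equations of the cone over the spinor variety -/
noncomputable def spEq (k : Type) [Field k] (x : Fin 3 × Fin 3 × Fin 3) :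
    MvPolynomial (Fin 16) k := Qe (m27 fun b => X b) x.1 x.2.1 x.2.2

theorem aeval_spEq {k L : Type} [Field k] [CommRing L] [Algebra k L] (z : Fin 16 → L)
    (x : Fin 3 × Fin 3 × Fin 3) : aeval z (spEq k x) = Qe (m27 z) x.1 x.2.1 x.2.2 := by
  unfold spEq
  have h1 := map_Qe (aeval z : MvPolynomial (Fin 16) k →ₐ[k] L).toRingHom
    (m27 fun b => (X b : MvPolynomial (Fin 16) k)) x.1 x.2.1 x.2.2
  refine h1.trans ?_
  congr 1
  funext t i j
  rw [map_m27]
  congr 1
  funext b
  exact aeval_X _ _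

/-- the grading for which the sixteen coordinates are the part of degree zero -/
def g27 : Fin 3 → Fin 3 → Fin 3 → ℤ :=
  ![![![3, 0, 0], ![0, -3, -3], ![0, -3, -3]],
    ![![-3, -3, -3], ![0, 0, 0], ![0, 0, 0]],
    ![![-3, 0, 0], ![-3, 0, 0], ![-3, 0, 0]]]

theorem g27_1 : ∀ t i j, g27 t i j + g27 t (i + 1) (j + 1) + g27 t (i + 2) (j + 2) = -3 := by
  decide +kernel

theorem g27_2 : ∀ t i j, g27 t i j + g27 t (i + 1) (j + 2) + g27 t (i + 2) (j + 1) = -3 := by
  decide +kernel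

theorem g27_3 : ∀ t i j l, g27 t i j + g27 (t + 1) j l + g27 (t + 2) l i = -3 := by
  decide +kernel

theorem wt_g27 : Wt (fun t i j => Multiplicative.ofAdd (g27 t i j))
    (Multiplicative.ofAdd (-3 : ℤ)) where
  det1 t i j := congrArg Multiplicative.ofAdd (g27_1 t i j)
  det2 t i j := congrArg Multiplicative.ofAdd (g27_2 t i j)
  trace t i j l := congrArg Multiplicative.ofAdd (g27_3 t i j l)

theorem g27_off : ∀ t i j, (∀ b, s16 b ≠ (t, i, j)) → g27 t i j ≠ 0 := by decide +kernel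

theorem g27_on : ∀ b, g27 (s16 b).1 (s16 b).2.1 (s16 b).2.2 = 0 := by decide +kernel

theorem Wt.prod {A B : Type*} [CommGroup A] [CommGroup B] {ω : Fin 3 → Fin 3 → Fin 3 → A} {D : A}
    {ω' : Fin 3 → Fin 3 → Fin 3 → B} {D' : B} (h : Wt ω D) (h' : Wt ω' D') :
    Wt (fun t i j => (ω t i j, ω' t i j)) (D, D') where
  det1 t i j := Prod.ext (h.det1 t i j) (h'.det1 t i j)
  det2 t i j := Prod.ext (h.det2 t i j) (h'.det2 t i j)
  trace t i j l := Prod.ext (h.trace t i j l) (h'.trace t i j l)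

theorem sp_ext {k : Type} [Field k] {A : Type*} [CommGroup A] {v : Fin 16 → A} (h : Sp v)
    (b0 : Fin 16) (hv : v b0 = 1) (P : Finset (Fin 16))
    (hP : ∀ b, b ∈ P ↔ v b = 1 ∧ ¬ coll (s16 b0) (s16 b)) :
    Ext k (spEq k) (fun b => v b = 1) P := by
  classical
  intro L _ _ u hind
  have hbP : b0 ∈ P := (hP b0).2 ⟨hv, not_coll_self _⟩
  have hu0 : u b0 ≠ 0 := hind.ne_zero ⟨b0, hbP⟩
  have hsq : ∀ b, (e16 b : L) * e16 b = 1 := fun b => by
    rw [← Int.cast_mul, e16_sq, Int.cast_one]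
  have hΩ := (wt27 v h).prod wt_g27
  have hΩs : ∀ b, v b = 1 → (W27 v (s16 b).1 (s16 b).2.1 (s16 b).2.2,
      Multiplicative.ofAdd (g27 (s16 b).1 (s16 b).2.1 (s16 b).2.2)) = 1 := by
    intro b hb
    rw [W27_s16, g27_on, hb]
    rfl
  set a : Fin 16 → L := fun b => if b ∈ P then u b else 0 with ha
  obtain ⟨z, h1, h2, h3⟩ := exists_chart (L := L) hΩ (s16 b0) (m27 a) (by
      rw [m27_s16, ha]
      simp only
      rw [if_pos hbP]
      exact mul_ne_zero (left_ne_zero_of_mul_eq_one (hsq b0)) hu0) (by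
      intro t i j hne
      by_cases hb : ∀ b, s16 b ≠ (t, i, j)
      · exact m27_off _ _ _ _ hb
      · push Not at hb
        obtain ⟨b, hb⟩ := hb
        have h4 := m27_s16 a b
        have h5 := hΩs b
        rw [hb] at h4 h5
        rw [h4, ha]
        simp only
        rw [if_neg, mul_zero]
        intro hbP'
        exact hne (h5 ((hP b).1 hbP').1))
  have hzoff : ∀ t i j, (∀ b, s16 b ≠ (t, i, j)) → z t i j = 0 := by
    intro t i j hb
    apply h2
    intro h4
    exact g27_off t i j hb (congrArg Prod.snd h4)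
  refine ⟨fun b => (e16 b : L) * z (s16 b).1 (s16 b).2.1 (s16 b).2.2, ?_, ?_, ?_⟩
  · intro b hb
    show (e16 b : L) * z (s16 b).1 (s16 b).2.1 (s16 b).2.2 = u b
    rw [h1 (s16 b).1 (s16 b).2.1 (s16 b).2.2 ((hP b).1 hb).2, m27_s16, ← mul_assoc, hsq, one_mul, ha]
    exact if_pos hb
  · intro b hb
    show (e16 b : L) * z (s16 b).1 (s16 b).2.1 (s16 b).2.2 = 0
    rw [h2 (s16 b).1 (s16 b).2.1 (s16 b).2.2, mul_zero]
    intro h4
    apply hb
    have h5 := congrArg Prod.fst h4
    rw [W27_s16] at h5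
    exact h5
  · intro x
    rw [aeval_spEq, m27_of z hzoff]
    exact h3 _ _ _

theorem m27_zero {R : Type*} [Ring R] : m27 (fun _ : Fin 16 => (0 : R)) = fun _ _ _ => 0 := by
  funext t i j
  by_cases h : ∀ b, s16 b ≠ (t, i, j)
  · exact m27_off _ _ _ _ h
  · push Not at h
    obtain ⟨b, hb⟩ := h
    have h1 := m27_s16 (fun _ : Fin 16 => (0 : R)) b
    rw [hb, mul_zero] at h1
    exact h1

theorem sp_ext_empty {k : Type} [Field k] (live : Fin 16 → Prop) : Ext k (spEq k) live ∅ := by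
  intro L _ _ u _
  refine ⟨fun _ => 0, by simp, by simp, ?_⟩
  intro x
  rw [aeval_spEq, m27_zero]
  unfold Qe
  simp

theorem third_notMem : ∀ b b' b'' : Fin 16, coll (s16 b) (s16 b') →
    third (s16 b) (s16 b') ≠ s16 b'' := by
  decide +kernel

theorem exists_vertex16 (A : Finset (Fin 16)) (hA : A.Nonempty) :
    ∃ b0 ∈ A, 2 * (A.filter fun b => coll (s16 b0) (s16 b)).card ≤ A.card := by
  classical
  obtain ⟨v, hv, hcount⟩ := exists_vertex (A.map ⟨s16, s16_injective⟩) (hA.map)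
  rw [Finset.mem_map] at hv
  obtain ⟨b0, hb0, rfl⟩ := hv
  refine ⟨b0, hb0, ?_⟩
  have h1 : ((A.map ⟨s16, s16_injective⟩).filter (coll (s16 b0))).card =
      (A.filter fun b => coll (s16 b0) (s16 b)).card := by
    rw [Finset.filter_map, Finset.card_map]
    rfl
  rcases hcount with h2 | ⟨_, x, hx, hvx, ht⟩
  · rw [Finset.card_map] at h2
    rw [← h1]
    exact h2
  · rw [Finset.mem_map] at hx ht
    obtain ⟨b', _, rfl⟩ := hx
    obtain ⟨b'', _, hb''⟩ := ht
    exact absurd hb''.symm (third_notMem b0 b' b'' hvx)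

theorem Sp.of {A B : Type*} [CommGroup A] [CommGroup B] {v v' : Fin 16 → A} (h : Sp v)
    (h' : Sp v') (f : A → A → B) (hf : ∀ a b c d, f a b * f c d = f (a * c) (b * d)) :
    Sp fun b => f (v b) (v' b) where
  h15a := by rw [hf, hf, h.h15a, h'.h15a]
  h15b := by rw [hf, hf, h.h15b, h'.h15b]
  h15c := by rw [hf, hf, h.h15c, h'.h15c]
  h14a := by rw [hf, hf, h.h14a, h'.h14a]
  h14b := by rw [hf, hf, h.h14b, h'.h14b]
  h14c := by rw [hf, hf, h.h14c, h'.h14c]
  h13a := by rw [hf, hf, h.h13a, h'.h13a]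
  h13b := by rw [hf, hf, h.h13b, h'.h13b]
  h12 := by rw [hf, hf, h.h12, h'.h12]
  h11 := by rw [hf, hf, h.h11, h'.h11]

theorem Sp.map {A B : Type*} [Mul A] [Mul B] {v : Fin 16 → A} (h : Sp v)
    (f : A → B) (hf : ∀ a b, f a * f b = f (a * b)) : Sp fun b => f (v b) where
  h15a := by rw [hf, hf, h.h15a]
  h15b := by rw [hf, hf, h.h15b]
  h15c := by rw [hf, hf, h.h15c]
  h14a := by rw [hf, hf, h.h14a]
  h14b := by rw [hf, hf, h.h14b]
  h14c := by rw [hf, hf, h.h14c]
  h13a := by rw [hf, hf, h.h13a]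
  h13b := by rw [hf, hf, h.h13b]
  h12 := by rw [hf, hf, h.h12]
  h11 := by rw [hf, hf, h.h11]

/-- the block of the spinor variety -/
theorem exists_bd_sp {k : Type} [Field k] {G : Type} [Group G] {N : ℕ}
    {w : Fin N → ℕ} {α : Fin N → G →* kˣ}
    (dg : Fin 16 → ℕ) (pos : ∀ b, 0 < dg b)
    (hd : Sp (fun b => Multiplicative.ofAdd (dg b : ℤ)))
    (χ : Fin 16 → G →* kˣ) (hχ : Sp χ)
    (M : Fin 16 → MvPolynomial (Fin N) k)
    (hom : ∀ b, IsWeightedHomogeneous w (M b) (dg b))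
    (semi : ∀ γ b, act (fun i => (α i γ : k)) (M b) = C ((χ b γ : kˣ) : k) * M b) :
    Nonempty (BD k G N w α (∑ b, (dg b : ℤ)) fun p =>
      ∀ t i j, Qe (m27 fun b => eval p (M b)) t i j = 0) := by
  classical
  refine ⟨{
    K := Fin 16
    ftK := inferInstance
    J := Fin 3 × Fin 3 × Fin 3
    g := spEq k
    M := M
    dg := dg
    dg_pos := pos
    hom := hom
    hg := ?_
    χ := χ
    semi := semi
    rank := ?_
    P := Fin 16
    ftP := inferInstance
    c := fun _ => 1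
    d := dg
    hd := pos
    X := χ
    q := 2
    hq := two_pos
    htop := ?_
    pat := ?_ }⟩
  · rintro ⟨t, i, j⟩
    refine hom_Qe _ (wt27 _ hd) _ ?_ t i j
    intro t i j
    by_cases h : ∀ b, s16 b ≠ (t, i, j)
    · exact Or.inl (m27_off _ _ _ _ h)
    · push Not at h
      obtain ⟨b, hb⟩ := h
      right
      refine ⟨dg b, ?_, ?_⟩
      · have h1 := W27_s16 (fun b => Multiplicative.ofAdd (dg b : ℤ)) b
        rw [hb] at h1
        exact h1.symm
      · have h1 := m27_s16 (fun b => (MvPolynomial.X b : MvPolynomial (Fin 16) k)) b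
        rw [hb] at h1
        rw [h1]
        have h2 : (((e16 b : ℤ) : MvPolynomial (Fin 16) k)) = C (e16 b : k) := by simp
        rw [h2]
        have h3 := (isWeightedHomogeneous_C dg (e16 b : k)).mul
          (isWeightedHomogeneous_X k dg b)
        rwa [zero_add] at h3
  · intro p hp t i j
    have h1 := hp (t, i, j)
    rw [← aeval_spEq (k := k) (L := k) (fun b => eval p (M b)) (t, i, j)]
    exact h1
  · push_cast
    simp only [one_mul]
  · intro γ μ
    have hω : Sp (fun b => χ b γ * (μ ^ (dg b : ℤ))⁻¹) := by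
      have h1 : Sp (fun b => χ b γ) := hχ.map (fun f : G →* kˣ => f γ) fun _ _ => rfl
      have h2 : Sp (fun b => (μ ^ (dg b : ℤ))⁻¹) :=
        hd.map (fun m : Multiplicative ℤ => (μ ^ (Multiplicative.toAdd m))⁻¹) fun a b => by
          rw [toAdd_mul, zpow_add, mul_inv]
      exact h1.of h2 (fun a b => a * b) fun a b c d => mul_mul_mul_comm a b c d
    set A0 : Finset (Fin 16) := univ.filter fun b => χ b γ = μ ^ dg b with hA0
    have hlive : ∀ b, b ∈ A0 ↔ χ b γ * (μ ^ (dg b : ℤ))⁻¹ = 1 := by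
      intro b
      rw [eq_pow_iff, hA0]
      simp
    have hfun : (fun b => χ b γ = μ ^ dg b) = fun b => χ b γ * (μ ^ (dg b : ℤ))⁻¹ = 1 := by
      funext b
      rw [eq_pow_iff]
    have hEA : ∀ E : Finset (Fin 16), (∀ b, b ∈ E ↔ χ b γ = μ ^ dg b) → E = A0 := by
      intro E hE
      ext b
      rw [hE, hA0]
      simp
    rcases A0.eq_empty_or_nonempty with h0 | h0
    · refine ⟨∅, sp_ext_empty _, ?_⟩
      intro A hA E hE
      rw [hEA A hA, h0]
      simp
    · obtain ⟨b0, hb0, hcount⟩ := exists_vertex16 A0 h0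
      refine ⟨A0.filter fun b => ¬ coll (s16 b0) (s16 b), ?_, ?_⟩
      · rw [hfun]
        refine sp_ext hω b0 ((hlive b0).1 hb0) _ ?_
        intro b
        rw [Finset.mem_filter, hlive b]
      · intro A hA E hE
        have h4 := Finset.card_filter_add_card_filter_not (s := A0)
          (fun b => coll (s16 b0) (s16 b))
        rw [hEA A hA, hEA E hE, Finset.sum_const, smul_eq_mul, mul_one]
        refine ⟨Finset.card_filter_le _ _, ?_⟩
        omega

end Pool.Agent.R837.FQ
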