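import Pool.Agent.R837.FQ.Spinor2

/-!
# The formats in terms of matrices
-/

set_option autoImplicit false
set_option linter.unusedSectionVars false

namespace Pool.Agent.R837.FQ

open Finset

theorem adj_of_Qe {R : Type} [CommRing R] (A : Fin 3 → Matrix (Fin 3) (Fin 3) R)
    (h : ∀ t i j, Qe (fun t i j => A t i j) t i j = 0) (t : Fin 3) :
    (A t).adjugate = A (t + 1) * A (t + 2) := by
  ext i j
  have h1 := h t i j
  unfold Qe at h1
  rw [Matrix.mul_apply, ← sub_eq_zero, ← h1]
  congr 1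
  rw [Matrix.adjugate_fin_three]
  fin_cases i <;> fin_cases j <;> simp <;> ring

/-- the Pfaffian of an alternating matrix of size 5 without the row and the column `i` -/
def pf {R : Type} [CommRing R] (Y : Matrix (Fin 5) (Fin 5) R) (i : Fin 5) : R :=
  Y (i.succAbove 0) (i.succAbove 1) * Y (i.succAbove 2) (i.succAbove 3) -
    Y (i.succAbove 0) (i.succAbove 2) * Y (i.succAbove 1) (i.succAbove 3) +
    Y (i.succAbove 0) (i.succAbove 3) * Y (i.succAbove 1) (i.succAbove 2)

/-- the sixteen coordinates -/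
def co {R : Type*} (x : R) (Y : Fin 5 → Fin 5 → R) (z : Fin 5 → R) : Fin 16 → R :=
  ![x, Y 0 1, Y 0 2, Y 0 3, Y 0 4, Y 1 2, Y 1 3, Y 1 4, Y 2 3, Y 2 4, Y 3 4, z 0, z 1, z 2, z 3, z 4]

theorem sp_of {A : Type*} [Mul A] (x : A) (y : Fin 5 → Fin 5 → A) (z : Fin 5 → A)
    (h : ∀ i : Fin 5,
      x * z i = y (i.succAbove 0) (i.succAbove 1) * y (i.succAbove 2) (i.succAbove 3) ∧
      x * z i = y (i.succAbove 0) (i.succAbove 2) * y (i.succAbove 1) (i.succAbove 3) ∧
      x * z i = y (i.succAbove 0) (i.succAbove 3) * y (i.succAbove 1) (i.succAbove 2)) :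
    Sp (co x y z) where
  h15a := (h 4).2.2
  h15b := (h 4).2.1
  h15c := (h 4).1
  h14a := (h 3).2.2
  h14b := (h 3).2.1
  h14c := (h 3).1
  h13a := (h 2).2.1
  h13b := (h 2).1
  h12 := (h 1).2.1
  h11 := (h 0).1

theorem co_map {R S : Type*} (f : R → S) (x : R) (Y : Fin 5 → Fin 5 → R) (z : Fin 5 → R)
    (b : Fin 16) : f (co x Y z b) = co (f x) (fun i j => f (Y i j)) (fun i => f (z i)) b := by
  fin_cases b <;> rfl

theorem spinor_of_Qe {R : Type} [CommRing R] (x : R) (Y : Matrix (Fin 5) (Fin 5) R)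
    (z : Fin 5 → R) (h0 : ∀ i, Y i i = 0) (h1 : ∀ i j, Y j i = -Y i j)
    (h : ∀ t i j, Qe (m27 (co x (fun i j => Y i j) z)) t i j = 0) :
    (∀ i : Fin 5, x * z i = (-1) ^ (i : ℕ) * pf Y i) ∧ ∀ i, ∑ j, Y i j * z j = 0 := by
  have p0 := h 0 2 1
  have v0 := h 0 1 2
  have p1 := h 2 0 0
  have v1 := h 1 0 0
  have p2 := h 2 0 1
  have v2 := h 1 1 0
  have p3 := h 0 2 2
  have v3 := h 0 1 1
  have p4 := h 2 0 2
  have v4 := h 1 2 0
  simp only [Qe, Fin.sum_univ_three] at p0 v0 p1 v1 p2 v2 p3 v3 p4 v4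
  simp [m27, co] at p0 v0 p1 v1 p2 v2 p3 v3 p4 v4
  constructor
  · intro i
    fin_cases i
    · simp [pf, Fin.succAbove]
      linear_combination -p0
    · simp [pf, Fin.succAbove]
      linear_combination p1
    · simp [pf, Fin.succAbove]
      linear_combination p2
    · simp [pf, Fin.succAbove]
      linear_combination -p3
    · simp [pf, Fin.succAbove]
      linear_combination p4
  · intro i
    rw [Fin.sum_univ_five]
    fin_cases i
    · simp [h0]
      linear_combination -v0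
    · simp [h0, h1 0 1]
      linear_combination v1
    · simp [h0, h1 0 2, h1 1 2]
      linear_combination v2
    · simp [h0, h1 0 3, h1 1 3, h1 2 3]
      linear_combination v3
    · simp [h0, h1 0 4, h1 1 4, h1 2 4, h1 3 4]
      linear_combination v4

end Pool.Agent.R837.FQ
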